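import Pool.Agent.CLQ.CAL

/-!
# CLQ, module BR: from reflexive graphs to simple graphs on `Fin k`
-/

set_option autoImplicit false

open Set

namespace Pool.Agent.CLQ

/-- the simple graph of a reflexive graph -/
def RG.sg (X : RG) : SimpleGraph X.V where
  Adj x y := x ≠ y ∧ X.r x y
  symm := ⟨fun _ _ h => ⟨h.1.symm, X.symm h.2⟩⟩
  loopless := ⟨fun _ h => h.1 rfl⟩

/-- transport of a reflexive graph to another vertex type, as a simple graph -/
def RG.tr (X : RG) {W : Type} (e : X.V ≃ W) : SimpleGraph W where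
  Adj a b := a ≠ b ∧ X.r (e.symm a) (e.symm b)
  symm := ⟨fun _ _ h => ⟨h.1.symm, X.symm h.2⟩⟩
  loopless := ⟨fun _ h => h.1 rfl⟩

/-- the transport is isomorphic to the original graph -/
def RG.trIso (X : RG) {W : Type} (e : X.V ≃ W) : X.sg ≃g X.tr e where
  toEquiv := e
  map_rel_iff' := by
    intro a b
    show (e a ≠ e b ∧ X.r (e.symm (e a)) (e.symm (e b))) ↔ (a ≠ b ∧ X.r a b)
    rw [e.symm_apply_apply, e.symm_apply_apply, e.injective.ne_iff]

theorem br_clique (Y : RG) {n : ℕ} (e : Y.V ≃ Fin n) (c : Finset (Fin n)) :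
    (Y.tr e).IsClique (c : Set (Fin n)) ↔ Y.Clq {y | e y ∈ c} := by
  constructor
  · intro h x hx y hy
    by_cases hxy : x = y
    · rw [hxy]
      exact Y.refl y
    · have h1 := h (show e x ∈ (c : Set (Fin n)) from hx) (show e y ∈ (c : Set (Fin n)) from hy)
        (e.injective.ne hxy)
      have h2 : Y.r (e.symm (e x)) (e.symm (e y)) := h1.2
      rw [e.symm_apply_apply, e.symm_apply_apply] at h2
      exact h2
  · intro h a ha b hb hab
    refine ⟨hab, h _ ?_ _ ?_⟩
    · show e (e.symm a) ∈ c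
      rw [e.apply_symm_apply]
      exact ha
    · show e (e.symm b) ∈ c
      rw [e.apply_symm_apply]
      exact hb

theorem br_max (Y : RG) {n : ℕ} (e : Y.V ≃ Fin n) (c : Finset (Fin n)) :
    ((Y.tr e).IsClique (c : Set (Fin n)) ∧ ∀ d : Finset (Fin n),
      (Y.tr e).IsClique (d : Set (Fin n)) → c ⊆ d → d = c) ↔ Y.MC {y | e y ∈ c} := by
  constructor
  · rintro ⟨h1, h2⟩
    have h3 := (br_clique Y e c).mp h1
    refine ⟨h3, fun x hx => ?_⟩
    have h4 := h2 (insert (e x) c) ((br_clique Y e _).mpr ?_) (Finset.subset_insert _ _)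
    · show e x ∈ c
      rw [← h4]
      exact Finset.mem_insert_self _ _
    · intro a ha b hb
      rcases Finset.mem_insert.mp ha with ha | ha
      · rcases Finset.mem_insert.mp hb with hb | hb
        · rw [e.injective ha, e.injective hb]
          exact Y.refl x
        · rw [e.injective ha]
          exact hx b hb
      · rcases Finset.mem_insert.mp hb with hb | hb
        · rw [e.injective hb]
          exact Y.symm (hx a ha)
        · exact h3 a ha b hb
  · rintro ⟨h1, h2⟩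
    refine ⟨(br_clique Y e c).mpr h1, fun d hd hcd => ?_⟩
    refine Finset.Subset.antisymm (fun a ha => ?_) hcd
    have h3 := (br_clique Y e d).mp hd
    have h4 := h2 (e.symm a) (fun y hy => h3 _ (by
      show e (e.symm a) ∈ d
      rw [e.apply_symm_apply]
      exact ha) y (hcd hy))
    have h5 : e (e.symm a) ∈ c := h4
    rwa [e.apply_symm_apply] at h5

/-- the clique graph in terms of finite sets -/
theorem br_iso (Y : RG) {n : ℕ} (e : Y.V ≃ Fin n) :
    Nonempty ((SimpleGraph.fromRel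
      (fun s t : {c : Finset (Fin n) // (Y.tr e).IsClique (c : Set (Fin n)) ∧
          ∀ d : Finset (Fin n), (Y.tr e).IsClique (d : Set (Fin n)) → c ⊆ d → d = c} =>
        (s.1 ∩ t.1).Nonempty)) ≃g Y.K.sg) := by
  classical
  refine ⟨⟨⟨fun c => ⟨{y | e y ∈ c.1}, (br_max Y e c.1).mp c.2⟩,
    fun Q => ⟨Finset.univ.filter fun a => e.symm a ∈ Q.1, (br_max Y e _).mpr ?_⟩, ?_, ?_⟩, ?_⟩⟩
  · have h : {y | e y ∈ Finset.univ.filter fun a => e.symm a ∈ Q.1} = Q.1 := by
      ext y
      simp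
    rw [h]
    exact Q.2
  · intro c
    apply Subtype.ext
    ext a
    simp
  · intro Q
    apply Subtype.ext
    ext y
    simp
  · intro c d
    show ((⟨{y | e y ∈ c.1}, (br_max Y e c.1).mp c.2⟩ : Y.K.V) ≠
      ⟨{y | e y ∈ d.1}, (br_max Y e d.1).mp d.2⟩ ∧
        ∃ x, x ∈ {y | e y ∈ c.1} ∧ x ∈ {y | e y ∈ d.1}) ↔
      (c ≠ d ∧ ((c.1 ∩ d.1).Nonempty ∨ (d.1 ∩ c.1).Nonempty))
    constructor
    · rintro ⟨h1, x, h2, h3⟩
      refine ⟨fun h => h1 (by rw [h]), Or.inl ⟨e x, Finset.mem_inter.mpr ⟨h2, h3⟩⟩⟩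
    · rintro ⟨h1, h2⟩
      have h3 : ∃ a, a ∈ c.1 ∧ a ∈ d.1 := by
        rcases h2 with ⟨a, ha⟩ | ⟨a, ha⟩
        · exact ⟨a, (Finset.mem_inter.mp ha).1, (Finset.mem_inter.mp ha).2⟩
        · exact ⟨a, (Finset.mem_inter.mp ha).2, (Finset.mem_inter.mp ha).1⟩
      obtain ⟨a, ha, ha'⟩ := h3
      refine ⟨fun h => h1 ?_, e.symm a, ?_, ?_⟩
      · apply Subtype.ext
        ext b
        have h4 := congrArg Subtype.val h
        have h5 : e.symm b ∈ {y | e y ∈ c.1} ↔ e.symm b ∈ {y | e y ∈ d.1} := by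
          have h6 : {y | e y ∈ c.1} = {y | e y ∈ d.1} := h4
          rw [h6]
        simp only [mem_ofPred_eq, e.apply_symm_apply] at h5
        exact h5
      · show e (e.symm a) ∈ c.1
        rw [e.apply_symm_apply]
        exact ha
      · show e (e.symm a) ∈ d.1
        rw [e.apply_symm_apply]
        exact ha'

theorem br_eq {X Y : RG} (h : X = Y) : Nonempty (X.sg ≃g Y.sg) := by
  subst h
  exact ⟨SimpleGraph.Iso.refl⟩

/-- (K5) clique nullity in the form of the question -/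
theorem frozen_of_null {V : Type} [Finite V] (G : SimpleGraph V) (hne : (univ : Set V).Nonempty)
    (hn : (ofSG G univ hne).Null) :
    ∃ n : ℕ, ∃ k : ℕ → ℕ, ∃ H : (i : ℕ) → SimpleGraph (Fin (k i)),
      Nonempty (G ≃g H 0) ∧
      (∀ i < n, Nonempty
        ((SimpleGraph.fromRel
          (fun s t : {c : Finset (Fin (k i)) //
              (H i).IsClique (c : Set (Fin (k i))) ∧
              ∀ d : Finset (Fin (k i)), (H i).IsClique (d : Set (Fin (k i))) → c ⊆ d → d = c} =>
            (s.1 ∩ t.1).Nonempty)) ≃g H (i + 1))) ∧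
      k n = 1 := by
  obtain ⟨n, hn⟩ := hn
  set X := ofSG G univ hne with hX
  refine ⟨n, fun i => Nat.card (it i X).V, fun i => (it i X).tr (Finite.equivFin (it i X).V),
    ?_, ?_, ?_⟩
  · refine ⟨SimpleGraph.Iso.comp (X.trIso (Finite.equivFin X.V)) ⟨(Equiv.Set.univ V).symm, ?_⟩⟩
    intro a b
    show (((Equiv.Set.univ V).symm a ≠ (Equiv.Set.univ V).symm b) ∧ (a = b ∨ G.Adj a b)) ↔
      G.Adj a b
    rw [(Equiv.Set.univ V).symm.injective.ne_iff]
    constructor
    · rintro ⟨h1, h2 | h2⟩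
      · exact absurd h2 h1
      · exact h2
    · intro h
      exact ⟨h.ne, Or.inr h⟩
  · intro i _
    obtain ⟨e1⟩ := br_iso (it i X) (Finite.equivFin (it i X).V)
    obtain ⟨e2⟩ := br_eq (it_succ i X).symm
    exact ⟨SimpleGraph.Iso.comp ((it (i + 1) X).trIso (Finite.equivFin (it (i + 1) X).V))
      (SimpleGraph.Iso.comp e2 e1)⟩
  · show Nat.card (it n X).V = 1
    have h1 := (it n X).ne
    exact Nat.card_eq_one_iff_unique.mpr ⟨hn, h1⟩

/-- (K3) one vertex -/
theorem null_singleton {V : Type} [Finite V] (G : SimpleGraph V) (v : V) :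
    (ofSG G {v} (singleton_nonempty v)).Null := by
  refine ⟨0, ⟨fun a b => ?_⟩⟩
  apply Subtype.ext
  have ha : a.1 = v := a.2
  have hb : b.1 = v := b.2
  rw [ha, hb]

/-- `1`-Lipschitz functions bound the length of chains -/
theorem ch_lip (X : RG) {f : X.V → ℕ} (hf : ∀ x y, X.r x y → f y ≤ f x + 1) :
    ∀ (k : ℕ) (x y : X.V), X.Ch k x y → f y ≤ f x + k
  | 0, x, y, h => by
    have e : x = y := h
    rw [e]
    exact Nat.le_add_right _ _
  | k + 1, x, y, ⟨z, hxz, hzy⟩ => by
    have h1 := hf x z hxz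
    have h2 := ch_lip X hf k z y hzy
    omega

end Pool.Agent.CLQ
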