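import Pool.Agent.CLQ.Defs

/-!
# CLQ, module CAL: the calculus of clique graphs up to homotopy
-/

set_option autoImplicit false

open Set

namespace Pool.Agent.CLQ

/-! ### maximal cliques -/

theorem mc_eq_of_subset {X : RG} {Q Q' : X.K.V} (h : Q.1 ⊆ Q'.1) : Q = Q' := by
  apply Subtype.ext
  refine Subset.antisymm h fun x hx => Q.2.2 x fun y hy => ?_
  exact Q'.2.1 x hx y (h hy)

/-! ### homotopies -/

theorem AdjM.symm {X Y : RG} {f g : X.V → Y.V} (h : AdjM X Y f g) : AdjM X Y g f :=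
  fun x y hxy => Y.symm (h y x (X.symm hxy))

theorem Htp.rfl' {X Y : RG} (f : X.V → Y.V) : Htp X Y f f := Relation.ReflTransGen.refl

theorem Htp.trans {X Y : RG} {f g h : X.V → Y.V} (h1 : Htp X Y f g) (h2 : Htp X Y g h) :
    Htp X Y f h := Relation.ReflTransGen.trans h1 h2

theorem Htp.one {X Y : RG} {f g : X.V → Y.V} (hf : Wk X Y f) (hg : Wk X Y g)
    (h : AdjM X Y f g) : Htp X Y f g := Relation.ReflTransGen.single ⟨hf, hg, h⟩

theorem Htp.symm {X Y : RG} {f g : X.V → Y.V} (h : Htp X Y f g) : Htp X Y g f := by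
  induction h with
  | refl => exact Relation.ReflTransGen.refl
  | tail _ h2 ih => exact Relation.ReflTransGen.head ⟨h2.2.1, h2.1, h2.2.2.symm⟩ ih

theorem wk_id (X : RG) : Wk X X id := fun _ _ h => h

theorem wk_const (X Y : RG) (c : Y.V) : Wk X Y (fun _ => c) := fun _ _ _ => Y.refl c

theorem Wk.comp {X Y Z : RG} {f : X.V → Y.V} {g : Y.V → Z.V} (hg : Wk Y Z g)
    (hf : Wk X Y f) : Wk X Z (g ∘ f) := fun x y h => hg _ _ (hf x y h)

theorem Htp.comp_left {X Y Z : RG} {f f' : X.V → Y.V} {g : Y.V → Z.V} (hg : Wk Y Z g)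
    (h : Htp X Y f f') : Htp X Z (g ∘ f) (g ∘ f') := by
  induction h with
  | refl => exact Htp.rfl' _
  | tail _ h2 ih =>
    exact ih.trans (Htp.one (hg.comp h2.1) (hg.comp h2.2.1)
      fun x y hxy => hg _ _ (h2.2.2 x y hxy))

theorem Htp.comp_right {X Y Z : RG} {f : X.V → Y.V} {g g' : Y.V → Z.V} (hf : Wk X Y f)
    (h : Htp Y Z g g') : Htp X Z (g ∘ f) (g' ∘ f) := by
  induction h with
  | refl => exact Htp.rfl' _
  | tail _ h2 ih =>
    exact ih.trans (Htp.one (h2.1.comp hf) (h2.2.1.comp hf)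
      fun x y hxy => h2.2.2 _ _ (hf x y hxy))

/-! ### lifts -/

/-- (C1) two lifts of a map are adjacent -/
theorem Lft.adj {X Y : RG} {f : X.V → Y.V} {F G : X.K.V → Y.K.V} (hF : Lft X Y f F)
    (hG : Lft X Y f G) : AdjM X.K Y.K F G := by
  rintro Q Q' ⟨x, hx, hx'⟩
  exact ⟨f x, hF Q x hx, hG Q' x hx'⟩

/-- (C0) lifts are weak maps -/
theorem Lft.wk {X Y : RG} {f : X.V → Y.V} {F : X.K.V → Y.K.V} (hF : Lft X Y f F) :
    Wk X.K Y.K F := hF.adj hF

theorem exists_lft₂ {X Y : RG} {f g : X.V → Y.V} (hf : Wk X Y f) (hg : Wk X Y g)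
    (h : AdjM X Y f g) : ∃ F, Lft X Y f F ∧ Lft X Y g F := by
  have h1 : ∀ Q : X.K.V, ∃ Q' : Y.K.V, f '' Q.1 ∪ g '' Q.1 ⊆ Q'.1 := by
    intro Q
    obtain ⟨Q', hQ', h2⟩ := Y.exists_mc (f '' Q.1 ∪ g '' Q.1) (by
      rintro _ (⟨x, hx, rfl⟩ | ⟨x, hx, rfl⟩) _ (⟨y, hy, rfl⟩ | ⟨y, hy, rfl⟩)
      · exact hf x y (Q.2.1 x hx y hy)
      · exact h x y (Q.2.1 x hx y hy)
      · exact h.symm x y (Q.2.1 x hx y hy)
      · exact hg x y (Q.2.1 x hx y hy))
    exact ⟨⟨Q', hQ'⟩, h2⟩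
  choose F hF using h1
  exact ⟨F, fun Q x hx => hF Q (Or.inl ⟨x, hx, rfl⟩), fun Q x hx => hF Q (Or.inr ⟨x, hx, rfl⟩)⟩

/-- (C0) existence of lifts -/
theorem exists_lft {X Y : RG} {f : X.V → Y.V} (hf : Wk X Y f) : ∃ F, Lft X Y f F := by
  obtain ⟨F, hF, _⟩ := exists_lft₂ hf hf hf
  exact ⟨F, hF⟩

/-- (C0) lifts which keep the elements adjacent to the whole image -/
theorem exists_lft_rule {X : RG} {f : X.V → X.V} (hf : Wk X X f) :
    ∃ F, Lft X X f F ∧ ∀ (Q : X.K.V) (u : X.V), u ∈ Q.1 → (∀ z ∈ Q.1, X.r (f z) u) →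
      u ∈ (F Q).1 := by
  have h1 : ∀ Q : X.K.V, ∃ Q' : X.K.V, f '' Q.1 ∪ {u | u ∈ Q.1 ∧ ∀ z ∈ Q.1, X.r (f z) u} ⊆
      Q'.1 := by
    intro Q
    obtain ⟨Q', hQ', h2⟩ := X.exists_mc
      (f '' Q.1 ∪ {u | u ∈ Q.1 ∧ ∀ z ∈ Q.1, X.r (f z) u}) (by
        rintro _ (⟨x, hx, rfl⟩ | ⟨hx, hx'⟩) _ (⟨y, hy, rfl⟩ | ⟨hy, hy'⟩)
        · exact hf x y (Q.2.1 x hx y hy)
        · exact hy' x hx
        · exact X.symm (hx' y hy)
        · exact Q.2.1 _ hx _ hy)
    exact ⟨⟨Q', hQ'⟩, h2⟩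
  choose F hF using h1
  exact ⟨F, fun Q x hx => hF Q (Or.inl ⟨x, hx, rfl⟩), fun Q u hu h => hF Q (Or.inr ⟨hu, h⟩)⟩

theorem Lft.comp {X Y Z : RG} {f : X.V → Y.V} {g : Y.V → Z.V} {F : X.K.V → Y.K.V}
    {G : Y.K.V → Z.K.V} (hG : Lft Y Z g G) (hF : Lft X Y f F) : Lft X Z (g ∘ f) (G ∘ F) :=
  fun Q x hx => hG _ _ (hF Q x hx)

theorem lft_id (X : RG) : Lft X X id id := fun _ _ h => h

/-- (C1) homotopic maps have homotopic lifts -/
theorem Lft.htp {X Y : RG} {f g : X.V → Y.V} (h : Htp X Y f g) {F G : X.K.V → Y.K.V}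
    (hF : Lft X Y f F) (hG : Lft X Y g G) : Htp X.K Y.K F G := by
  induction h generalizing G with
  | refl => exact Htp.one hF.wk hG.wk (hF.adj hG)
  | tail _ h2 ih =>
    obtain ⟨R, hR, hR'⟩ := exists_lft₂ h2.1 h2.2.1 h2.2.2
    exact (ih hR).trans (Htp.one hR.wk hG.wk (hR'.adj hG))

/-! ### iterated lifts -/

theorem exists_lftN {X Y : RG} {f : X.V → Y.V} (hf : Wk X Y f) (n : ℕ) :
    ∃ F, LftN n X Y f F ∧ Wk (it n X) (it n Y) F := by
  induction n generalizing X Y with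
  | zero => exact ⟨f, rfl, hf⟩
  | succ n ih =>
    obtain ⟨g, hg⟩ := exists_lft hf
    obtain ⟨F, hF, hFw⟩ := ih hg.wk
    exact ⟨F, ⟨g, hg, hF⟩, hFw⟩

theorem lftN_id (X : RG) (n : ℕ) : LftN n X X id id := by
  induction n generalizing X with
  | zero => rfl
  | succ n ih => exact ⟨id, lft_id X, ih X.K⟩

theorem LftN.comp {n : ℕ} : ∀ {X Y Z : RG} {f : X.V → Y.V} {g : Y.V → Z.V}
    {F : (it n X).V → (it n Y).V} {G : (it n Y).V → (it n Z).V}, LftN n Y Z g G →
    LftN n X Y f F → LftN n X Z (g ∘ f) (G ∘ F) := by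
  induction n with
  | zero =>
    intro X Y Z f g F G h1 h2
    have e1 : G = g := h1
    have e2 : F = f := h2
    show G ∘ F = g ∘ f
    subst e1 e2
    rfl
  | succ n ih =>
    rintro X Y Z f g F G ⟨g', hg', hG⟩ ⟨f', hf', hF⟩
    exact ⟨g' ∘ f', hg'.comp hf', ih hG hF⟩

theorem LftN.wk {n : ℕ} : ∀ {X Y : RG} {f : X.V → Y.V} {F : (it n X).V → (it n Y).V},
    Wk X Y f → LftN n X Y f F → Wk (it n X) (it n Y) F := by
  induction n with
  | zero =>
    intro X Y f F hf h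
    have e : F = f := h
    rw [e]
    exact hf
  | succ n ih =>
    rintro X Y f F _ ⟨g, hg, hF⟩
    exact ih hg.wk hF

theorem LftN.htp {n : ℕ} : ∀ {X Y : RG} {f g : X.V → Y.V}
    {F G : (it n X).V → (it n Y).V}, Htp X Y f g → LftN n X Y f F → LftN n X Y g G →
    Htp (it n X) (it n Y) F G := by
  induction n with
  | zero =>
    intro X Y f g F G h h1 h2
    have e1 : F = f := h1
    have e2 : G = g := h2
    show Htp X Y F G
    rw [e1, e2]
    exact h
  | succ n ih =>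
    rintro X Y f g F G h ⟨f', hf', hF⟩ ⟨g', hg', hG⟩
    exact ih (hf'.htp h hg') hF hG

/-! ### iteration -/

theorem it_add (m n : ℕ) (X : RG) : it (m + n) X = it m (it n X) := by
  induction n generalizing X with
  | zero => rfl
  | succ n ih => exact ih X.K

theorem it_succ (n : ℕ) (X : RG) : it (n + 1) X = (it n X).K := by
  rw [Nat.add_comm, it_add]
  rfl

theorem sub_K {X : RG} (h : Subsingleton X.V) : Subsingleton X.K.V := by
  refine ⟨fun a b => ?_⟩
  apply mc_eq_of_subset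
  intro y hy
  obtain ⟨z, hz⟩ := RG.MC.nonempty b.2
  rw [Subsingleton.elim y z]
  exact hz

theorem sub_it {X : RG} (h : Subsingleton X.V) (n : ℕ) : Subsingleton (it n X).V := by
  induction n generalizing X with
  | zero => exact h
  | succ n ih => exact ih (sub_K h)

theorem null_it_iff (n : ℕ) (X : RG) : (it n X).Null ↔ X.Null := by
  constructor
  · rintro ⟨m, hm⟩
    refine ⟨m + n, ?_⟩
    rw [it_add]
    exact hm
  · rintro ⟨m, hm⟩
    refine ⟨m, ?_⟩
    rw [← it_add, Nat.add_comm, it_add]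
    exact sub_it hm n

/-! ### contractible graphs -/

/-- a chain of length `m` from the identity to a constant map -/
def Chn (X : RG) (m : ℕ) (h : ℕ → X.V → X.V) : Prop :=
  h 0 = id ∧ (∃ c, h m = fun _ => c) ∧
    ∀ i, Wk X X (h i) ∧ Wk X X (h (i + 1)) ∧ AdjM X X (h i) (h (i + 1))

theorem Chn.shorten {X : RG} {m : ℕ} {h : ℕ → X.V → X.V} (hc : Chn X (m + 1) h) :
    ∃ h', Chn X.K.K m h' := by
  obtain ⟨h0, ⟨c, h1⟩, h2⟩ := hc
  have h3 : ∀ i, ∃ R, Lft X X (h i) R ∧ Lft X X (h (i + 1)) R := fun i =>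
    exists_lft₂ (h2 i).1 (h2 i).2.1 (h2 i).2.2
  choose R hR hR' using h3
  have hR0 : R 0 = id := by
    funext Q
    symm
    apply mc_eq_of_subset
    intro x hx
    have h4 := hR 0 Q x hx
    rw [h0] at h4
    exact h4
  have hcm : ∀ Q, c ∈ (R m Q).1 := by
    intro Q
    obtain ⟨x, hx⟩ := RG.MC.nonempty Q.2
    have h4 := hR' m Q x hx
    rw [h1] at h4
    exact h4
  obtain ⟨D, hD⟩ : ∃ D : X.K.K.V, range (R m) ⊆ D.1 := by
    obtain ⟨D, hD, hD'⟩ := X.K.exists_mc (range (R m)) (by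
      rintro _ ⟨Q, rfl⟩ _ ⟨Q', rfl⟩
      exact ⟨c, hcm Q, hcm Q'⟩)
    exact ⟨⟨D, hD⟩, hD'⟩
  have h5 : ∀ i, ∃ T, Lft X.K X.K (R i) T ∧ Lft X.K X.K (R (i + 1)) T := fun i =>
    exists_lft₂ (hR i).wk (hR (i + 1)).wk ((hR' i).adj (hR (i + 1)))
  choose T hT hT' using h5
  refine ⟨fun i => if i < m then T i else fun _ => D, ?_, ?_, ?_⟩
  · show (if 0 < m then T 0 else fun _ => D) = id
    split_ifs with hm
    · funext Q
      symm
      apply mc_eq_of_subset
      intro x hx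
      have h4 := hT 0 Q x hx
      rw [hR0] at h4
      exact h4
    · have hm0 : m = 0 := by omega
      subst hm0
      funext Q
      symm
      apply mc_eq_of_subset
      intro x hx
      have h4 : R 0 x ∈ D.1 := hD ⟨x, rfl⟩
      rw [hR0] at h4
      exact h4
  · refine ⟨D, ?_⟩
    show (if m < m then T m else fun _ => D) = fun _ => D
    rw [if_neg (lt_irrefl m)]
  · intro i
    have hDw : Wk X.K.K X.K.K (fun _ => D) := wk_const _ _ D
    show Wk _ _ (if i < m then T i else fun _ => D) ∧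
      Wk _ _ (if i + 1 < m then T (i + 1) else fun _ => D) ∧
      AdjM _ _ (if i < m then T i else fun _ => D) (if i + 1 < m then T (i + 1) else fun _ => D)
    rcases lt_trichotomy (i + 1) m with hi | hi | hi
    · rw [if_pos (by omega), if_pos hi]
      exact ⟨(hT i).wk, (hT (i + 1)).wk, (hT' i).adj (hT (i + 1))⟩
    · rw [if_pos (by omega), if_neg (by omega)]
      refine ⟨(hT i).wk, hDw, ?_⟩
      have h6 : Lft X.K X.K (R (i + 1)) (fun _ => D) := by
        intro Q x _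
        rw [hi]
        exact hD ⟨x, rfl⟩
      exact (hT' i).adj h6
    · rw [if_neg (by omega), if_neg (by omega)]
      exact ⟨hDw, hDw, hDw⟩

theorem Chn.null {m : ℕ} : ∀ {X : RG} {h : ℕ → X.V → X.V}, Chn X m h → X.Null := by
  induction m with
  | zero =>
    intro X h hc
    obtain ⟨h0, ⟨c, h1⟩, _⟩ := hc
    refine ⟨0, ⟨fun a b => ?_⟩⟩
    have e : (id : X.V → X.V) = fun _ => c := by rw [← h0, h1]
    have ea : a = c := congrFun e a
    have eb : b = c := congrFun e b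
    rw [ea, eb]
  | succ m ih =>
    intro X h hc
    obtain ⟨h', hh'⟩ := hc.shorten
    exact (null_it_iff 2 X).mp (ih hh')

theorem htp_chain {X Y : RG} {f g : X.V → Y.V} (h : Htp X Y f g) :
    ∃ (m : ℕ) (k : ℕ → X.V → Y.V), k 0 = f ∧ k m = g ∧ ∀ i, i < m →
      Wk X Y (k i) ∧ Wk X Y (k (i + 1)) ∧ AdjM X Y (k i) (k (i + 1)) := by
  induction h with
  | refl => exact ⟨0, fun _ => f, rfl, rfl, fun i hi => absurd hi (Nat.not_lt_zero i)⟩
  | @tail b c _ h2 ih =>
    obtain ⟨m, k, h0, h1, h3⟩ := ih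
    refine ⟨m + 1, fun i => if i ≤ m then k i else c, ?_, ?_, ?_⟩
    · show (if 0 ≤ m then k 0 else c) = f
      rw [if_pos (Nat.zero_le m), h0]
    · show (if m + 1 ≤ m then k (m + 1) else c) = c
      rw [if_neg (by omega)]
    · intro i hi
      show Wk X Y (if i ≤ m then k i else c) ∧ Wk X Y (if i + 1 ≤ m then k (i + 1) else c) ∧
        AdjM X Y (if i ≤ m then k i else c) (if i + 1 ≤ m then k (i + 1) else c)
      rcases Nat.lt_or_ge i m with h4 | h4
      · rw [if_pos h4.le, if_pos (show i + 1 ≤ m from h4)]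
        exact h3 i h4
      · have h5 : i = m := by omega
        subst h5
        rw [if_pos le_rfl, if_neg (by omega), h1]
        exact h2

/-- (C2) contractible graphs are clique null -/
theorem null_of_htp_const {X : RG} {c : X.V} (h : Htp X X id (fun _ => c)) : X.Null := by
  obtain ⟨m, k, h0, h1, h2⟩ := htp_chain h
  refine Chn.null (m := m) (h := fun i => if i ≤ m then k i else fun _ => c)
    ⟨?_, ⟨c, ?_⟩, fun i => ?_⟩
  · show (if 0 ≤ m then k 0 else fun _ => c) = id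
    rw [if_pos (Nat.zero_le m), h0]
  · show (if m ≤ m then k m else fun _ => c) = fun _ => c
    rw [if_pos le_rfl, h1]
  · show Wk X X (if i ≤ m then k i else fun _ => c) ∧
      Wk X X (if i + 1 ≤ m then k (i + 1) else fun _ => c) ∧
      AdjM X X (if i ≤ m then k i else fun _ => c)
        (if i + 1 ≤ m then k (i + 1) else fun _ => c)
    rcases Nat.lt_or_ge i m with h4 | h4
    · rw [if_pos h4.le, if_pos (show i + 1 ≤ m from h4)]
      exact h2 i h4
    · have h5 : (if i ≤ m then k i else fun _ => c) = fun _ => c := by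
        split_ifs with h6
        · have h7 : i = m := by omega
          rw [h7, h1]
        · rfl
      rw [h5, if_neg (by omega)]
      exact ⟨wk_const _ _ c, wk_const _ _ c, wk_const _ _ c⟩

/-! ### domination and nullity -/

/-- `X` is a homotopy retract of `Y` -/
def Dm (X Y : RG) : Prop :=
  ∃ (i : Y.V → X.V) (r : X.V → Y.V), Wk Y X i ∧ Wk X Y r ∧ Htp X X (i ∘ r) id

theorem Dm.K {X Y : RG} (h : Dm X Y) : Dm X.K Y.K := by
  obtain ⟨i, r, hi, hr, h1⟩ := h
  obtain ⟨I, hI⟩ := exists_lft hi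
  obtain ⟨R, hR⟩ := exists_lft hr
  exact ⟨I, R, hI.wk, hR.wk, (hI.comp hR).htp h1 (lft_id X)⟩

theorem Dm.it {X Y : RG} (h : Dm X Y) (n : ℕ) : Dm (it n X) (it n Y) := by
  induction n generalizing X Y with
  | zero => exact h
  | succ n ih => exact ih h.K

theorem Dm.null {X Y : RG} (h : Dm X Y) (hY : Y.Null) : X.Null := by
  obtain ⟨n, hn⟩ := hY
  obtain ⟨i, r, hi, hr, h1⟩ := h.it n
  obtain ⟨y⟩ := (CLQ.it n Y).ne
  have h2 : i ∘ r = fun _ => i y := by
    funext x
    show i (r x) = i y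
    rw [Subsingleton.elim (r x) y]
  rw [h2] at h1
  exact (null_it_iff n X).mp (null_of_htp_const h1.symm)

/-- (C3) If a value of `K^n` at `i ∘ r` is homotopic to the identity then the nullity of `Y`
implies the nullity of `X`. -/
theorem null_of_lftN {X Y : RG} {i : Y.V → X.V} {r : X.V → Y.V} (hi : Wk Y X i)
    (hr : Wk X Y r) {n : ℕ} {F : (it n X).V → (it n X).V} (hF : LftN n X X (i ∘ r) F)
    (h : Htp (it n X) (it n X) F id) (hY : Y.Null) : X.Null := by
  obtain ⟨I, hI, hIw⟩ := exists_lftN hi n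
  obtain ⟨R, hR, hRw⟩ := exists_lftN hr n
  have h1 : Htp (it n X) (it n X) (I ∘ R) id :=
    ((hI.comp hR).htp (Htp.rfl' _) hF).trans h
  have h2 : Dm (it n X) (it n Y) := ⟨I, R, hIw, hRw, h1⟩
  exact (null_it_iff n X).mp (h2.null ((null_it_iff n Y).mpr hY))

/-- (C3) the same for adjacent maps -/
theorem null_of_lftN_adj {X Y : RG} {i : Y.V → X.V} {r : X.V → Y.V} (hi : Wk Y X i)
    (hr : Wk X Y r) {n : ℕ} {F : (it n X).V → (it n X).V} (hF : LftN n X X (i ∘ r) F)
    (h : AdjM (it n X) (it n X) F id) (hY : Y.Null) : X.Null :=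
  null_of_lftN hi hr hF (Htp.one (hF.wk (hi.comp hr)) (wk_id _) h) hY

/-- (C3) retracts of clique null graphs are clique null -/
theorem null_of_retract {X Y : RG} {i : Y.V → X.V} {r : X.V → Y.V} (hi : Wk Y X i)
    (hr : Wk X Y r) (h : r ∘ i = id) (hX : X.Null) : Y.Null := by
  refine Dm.null (X := Y) (Y := X) ⟨r, i, hr, hi, ?_⟩ hX
  rw [h]
  exact Htp.rfl' _

/-- nullity is invariant under isomorphisms (bijections which preserve and reflect adjacency) -/
theorem null_of_equiv {X Y : RG} (e : X.V ≃ Y.V) (h : ∀ x y, X.r x y ↔ Y.r (e x) (e y))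
    (hX : X.Null) : Y.Null := by
  refine null_of_retract (X := X) (Y := Y) (i := e.symm) (r := e) ?_ (fun x y => (h x y).mp) ?_ hX
  · intro x y hxy
    rw [h, e.apply_symm_apply, e.apply_symm_apply]
    exact hxy
  · funext y
    exact e.apply_symm_apply y

/-! ### induced subgraphs of a simple graph -/

/-- the subgraph induced on `A` as a reflexive graph -/
def ofSG {V : Type} [Finite V] (G : SimpleGraph V) (A : Set V) (hA : A.Nonempty) : RG where
  V := {x // x ∈ A}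
  fin := inferInstance
  ne := hA.to_subtype
  r x y := x.1 = y.1 ∨ G.Adj x.1 y.1
  refl x := Or.inl rfl
  symm := by
    intro x y h
    rcases h with h | h
    · exact Or.inl h.symm
    · exact Or.inr h.symm

/-- (C4) removal of a dominated vertex -/
theorem null_of_dominated {V : Type} [Finite V] (G : SimpleGraph V) {A : Set V}
    (hA : A.Nonempty) {u v : V} (hu : u ∈ A) (hv : v ∈ A) (huv : u ≠ v)
    (hd : ∀ w ∈ A, (v = w ∨ G.Adj v w) → (u = w ∨ G.Adj u w)) (hA' : (A \ {v}).Nonempty) :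
    (ofSG G (A \ {v}) hA').Null ↔ (ofSG G A hA).Null := by
  classical
  let i : (ofSG G (A \ {v}) hA').V → (ofSG G A hA).V := fun x => ⟨x.1, x.2.1⟩
  let r : (ofSG G A hA).V → (ofSG G (A \ {v}) hA').V := fun x =>
    if h : x.1 = v then ⟨u, hu, huv⟩ else ⟨x.1, x.2, h⟩
  have hr1 : ∀ x, x.1 = v → (r x).1 = u := fun x h => by
    have h1 : r x = ⟨u, hu, huv⟩ := dif_pos h
    rw [h1]
  have hr2 : ∀ x, x.1 ≠ v → (r x).1 = x.1 := fun x h => by
    have h1 : r x = ⟨x.1, x.2, h⟩ := dif_neg h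
    rw [h1]
  have key : ∀ x y : (ofSG G A hA).V, (ofSG G A hA).r x y → (r x).1 = y.1 ∨
      G.Adj (r x).1 y.1 := by
    intro x y h
    by_cases hx : x.1 = v
    · rw [hr1 x hx]
      refine hd y.1 y.2 ?_
      rw [← hx]
      exact h
    · rw [hr2 x hx]
      exact h
  have hi : Wk (ofSG G (A \ {v}) hA') (ofSG G A hA) i := fun x y h => h
  have hrw : Wk (ofSG G A hA) (ofSG G (A \ {v}) hA') r := by
    intro x y h
    show (r x).1 = (r y).1 ∨ G.Adj (r x).1 (r y).1
    have h1 := key x y h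
    have h2 := key y (i (r x)) ((ofSG G A hA).symm h1)
    rcases h2 with h2 | h2
    · exact Or.inl h2.symm
    · exact Or.inr h2.symm
  constructor
  · intro h
    refine Dm.null ⟨i, r, hi, hrw, Htp.one (hi.comp hrw) (wk_id _) ?_⟩ h
    intro x y hxy
    exact key x y hxy
  · intro h
    refine null_of_retract hi hrw ?_ h
    funext x
    apply Subtype.ext
    exact hr2 (i x) x.2.2

end Pool.Agent.CLQ
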