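import Mathlib

/-!
# CLQ: iterated clique graphs and tight strips; shared definitions (abstract part)

See the paper text CLQ_paper.md (Theorem S, problem MP_78824b_co).
-/

set_option autoImplicit false

namespace Pool.Agent.CLQ

/-- Finite nonempty reflexive graphs. -/
structure RG : Type 1 where
  /-- the vertices -/
  V : Type
  fin : Finite V
  ne : Nonempty V
  /-- adjacent or equal -/
  r : V → V → Prop
  refl : ∀ x, r x x
  symm : ∀ {x y}, r x y → r y x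

attribute [instance] RG.fin RG.ne

namespace RG

variable (X : RG)

/-- cliques -/
def Clq (Q : Set X.V) : Prop := ∀ x ∈ Q, ∀ y ∈ Q, X.r x y

/-- maximal cliques -/
def MC (Q : Set X.V) : Prop := X.Clq Q ∧ ∀ x, (∀ y ∈ Q, X.r x y) → x ∈ Q

theorem exists_mc (S : Set X.V) (h : X.Clq S) : ∃ Q, X.MC Q ∧ S ⊆ Q := by
  have hfin : {Q : Set X.V | X.Clq Q ∧ S ⊆ Q}.Finite := Set.toFinite _
  obtain ⟨Q, hQ⟩ := hfin.exists_maximal ⟨S, h, subset_rfl⟩
  refine ⟨Q, ⟨hQ.prop.1, fun x hx => ?_⟩, hQ.prop.2⟩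
  have h1 : insert x Q ∈ {Q : Set X.V | X.Clq Q ∧ S ⊆ Q} := by
    refine ⟨?_, hQ.prop.2.trans (Set.subset_insert _ _)⟩
    intro a ha b hb
    rcases ha with rfl | ha
    · rcases hb with rfl | hb
      · exact X.refl _
      · exact hx b hb
    · rcases hb with rfl | hb
      · exact X.symm (hx a ha)
      · exact hQ.prop.1 a ha b hb
  exact hQ.le_of_ge h1 (Set.subset_insert _ _) (Set.mem_insert _ _)

theorem MC.nonempty {X : RG} {Q : Set X.V} (hQ : X.MC Q) : Q.Nonempty := by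
  by_contra h
  rw [Set.not_nonempty_iff_eq_empty] at h
  obtain ⟨x⟩ := X.ne
  have := hQ.2 x (by rw [h]; intro y hy; exact absurd hy (Set.notMem_empty y))
  rw [h] at this
  exact this

/-- the clique graph -/
def K : RG where
  V := {Q : Set X.V // X.MC Q}
  fin := inferInstance
  ne := by
    obtain ⟨Q, hQ, _⟩ := X.exists_mc ∅ (fun x hx => absurd hx (Set.notMem_empty x))
    exact ⟨⟨Q, hQ⟩⟩
  r Q Q' := ∃ x, x ∈ Q.1 ∧ x ∈ Q'.1
  refl Q := by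
    obtain ⟨x, hx⟩ := MC.nonempty Q.2
    exact ⟨x, hx, hx⟩
  symm := fun ⟨x, h1, h2⟩ => ⟨x, h2, h1⟩

/-- chains of length `n` -/
def Ch : ℕ → X.V → X.V → Prop
  | 0, x, z => x = z
  | n + 1, x, z => ∃ y, X.r x y ∧ Ch n y z

end RG

/-- iterated clique graphs, `it n X = K^n(X)` -/
def it : ℕ → RG → RG
  | 0, X => X
  | n + 1, X => it n X.K

/-- some iterated clique graph has exactly one vertex -/
def RG.Null (X : RG) : Prop := ∃ n, Subsingleton (it n X).V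

/-- weak maps -/
def Wk (X Y : RG) (f : X.V → Y.V) : Prop := ∀ x y, X.r x y → Y.r (f x) (f y)

/-- adjacent maps -/
def AdjM (X Y : RG) (f g : X.V → Y.V) : Prop := ∀ x y, X.r x y → Y.r (f x) (g y)

/-- homotopic maps -/
def Htp (X Y : RG) (f g : X.V → Y.V) : Prop :=
  Relation.ReflTransGen (fun f g => Wk X Y f ∧ Wk X Y g ∧ AdjM X Y f g) f g

/-- `F` is a lift of `f` to the clique graphs -/
def Lft (X Y : RG) (f : X.V → Y.V) (F : X.K.V → Y.K.V) : Prop :=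
  ∀ Q : X.K.V, ∀ x ∈ Q.1, f x ∈ (F Q).1

/-- `F` is an iterated lift of `f` -/
def LftN : (n : ℕ) → (X Y : RG) → (X.V → Y.V) → ((it n X).V → (it n Y).V) → Prop
  | 0, _, _, f, F => F = f
  | n + 1, X, Y, f, F => ∃ g, Lft X Y f g ∧ LftN n X.K Y.K g F

/-! ### windows -/

/-- the windows of the clique graph -/
def KW (X : RG) (W : ℤ → X.V → Prop) : ℤ → X.K.V → Prop :=
  fun i Q => (∃ u ∈ Q.1, W i u) ∧ ∃ u ∈ Q.1, W (i + 1) u

/-- reversed windows -/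
def rv {α : Type} (n : ℤ) (W : ℤ → α → Prop) : ℤ → α → Prop := fun i => W (n - i)

/-- The windows `0, ..., n` and their distances. -/
structure St (X : RG) (n : ℤ) (W : ℤ → X.V → Prop) : Prop where
  rng : ∀ i u, W i u → 0 ≤ i ∧ i ≤ n
  far : ∀ a b u v (k : ℕ), a < b → ¬ (a = 0 ∧ b = n) → W a u → W b v → X.Ch k u v → b - a ≤ k

/-- The function `lambda`: for `u` in an inner window `i` it is a neutral element, adjacent to all
neighbours of `u` except those in the window `i + 1`. -/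
structure Lm (X : RG) (n : ℤ) (W : ℤ → X.V → Prop) (l : X.V → X.V) : Prop where
  neut : ∀ i u, 1 ≤ i → i ≤ n - 1 → W i u → ∀ j, ¬ W j (l u)
  adj : ∀ i u v, 1 ≤ i → i ≤ n - 1 → W i u → X.r u v → ¬ W (i + 1) v → X.r (l u) v
  up : ∀ i j u v (k : ℕ), 1 ≤ i → i ≤ n - 1 → i ≤ j → ¬ (i = 1 ∧ j = n) → W i u → W j v →
    X.Ch k (l u) v → j - i + 1 ≤ k
  dn : ∀ i j u v (k : ℕ), 1 ≤ i → i ≤ n - 1 → j < i → W i u → W j v →
    X.Ch k (l u) v → i - j ≤ k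

/-- The defects of the map `f` (pairs `u, v` with `u` adjacent or equal to `v` but `f u` not) join
neighbouring inner windows. -/
structure Df (X : RG) (n : ℤ) (W : ℤ → X.V → Prop) (f : X.V → X.V) : Prop where
  wk : Wk X X f
  df : ∀ u v, X.r u v → ¬ X.r (f u) v → ∃ i j, W i u ∧ W j v ∧ (j = i + 1 ∨ j = i - 1) ∧
    1 ≤ i ∧ i ≤ n - 1 ∧ 1 ≤ j ∧ j ≤ n - 1

/-! ### strips -/

/-- A tight strip of length `s` in the graph `M`. -/
structure Strip (M : RG) (s : ℕ) (e w x : ℕ → M.V) : Prop where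
  s1 : 1 ≤ s
  ee : ∀ i, i ≤ s + 1 → M.r (e i) (e (i + 1))
  ww : ∀ i, i ≤ s → M.r (w i) (w (i + 1))
  ew : ∀ i, i ≤ s + 1 → M.r (e i) (w i)
  ew' : ∀ i, i ≤ s + 1 → M.r (e (i + 1)) (w i)
  nb : ∀ i v, 1 ≤ i → i ≤ s + 1 → M.r (e i) v →
    v = e (i - 1) ∨ v = e i ∨ v = e (i + 1) ∨ v = w (i - 1) ∨ v = w i
  x0 : x 0 = w 0
  xs : x s = w (s + 1)
  xx : ∀ i, i < s → M.r (x i) (x (i + 1))
  xw : ∀ i, 1 ≤ i → i ≤ s + 1 → M.r (x (i - 1)) (w (i - 1)) ∧ M.r (x (i - 1)) (w i)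
  t1 : ∀ k, M.Ch k (e 0) (e (s + 1)) → s + 1 ≤ k
  t2 : ∀ k, M.Ch k (e 1) (e (s + 2)) → s + 1 ≤ k
  t3 : ∀ k, M.Ch k (w 0) (e (s + 1)) → s + 1 ≤ k
  t4 : ∀ k, M.Ch k (e 1) (w (s + 1)) → s + 1 ≤ k
  t5 : ∀ k, M.Ch k (e 0) (w s) → s + 1 ≤ k
  t6 : ∀ k, M.Ch k (w 1) (e (s + 2)) → s + 1 ≤ k

/-- the windows of level zero -/
def W0 (M : RG) (s : ℕ) (e : ℕ → M.V) : ℤ → M.V → Prop :=
  fun i u => ∃ a : ℕ, (a : ℤ) = i ∧ a ≤ s + 2 ∧ u = e a

end Pool.Agent.CLQ
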