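import Pool.Agent.CLQ.ONE

/-!
# CLQ, module FZ: clique nullity in terms of simple graphs, both directions
-/

set_option autoImplicit false

open Set

namespace Pool.Agent.CLQ

/-- the whole graph as a reflexive graph -/
def tRG {V : Type} [Finite V] (G : SimpleGraph V) (h : (univ : Set V).Nonempty) : RG :=
  ofSG G univ h

theorem r_iff_sg (X : RG) (x y : X.V) : X.r x y ↔ (x = y ∨ X.sg.Adj x y) := by
  constructor
  · intro h
    by_cases hxy : x = y
    · exact Or.inl hxy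
    · exact Or.inr ⟨hxy, h⟩
  · rintro (h | h)
    · rw [h]
      exact X.refl y
    · exact h.2

/-- nullity along an isomorphism of the simple graphs -/
theorem null_of_sg_iso {X Y : RG} (e : X.sg ≃g Y.sg) (hX : X.Null) : Y.Null := by
  refine null_of_equiv e.toEquiv (fun x y => ?_) hX
  rw [r_iff_sg, r_iff_sg]
  have h1 : Y.sg.Adj (e.toEquiv x) (e.toEquiv y) ↔ X.sg.Adj x y := e.map_adj_iff
  rw [h1, e.toEquiv.injective.eq_iff]

theorem sg_ofSG {V : Type} [Finite V] (G : SimpleGraph V) {A : Set V} (hA : A.Nonempty) :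
    (ofSG G A hA).sg = G.induce A := by
  ext a b
  show (a ≠ b ∧ (a.1 = b.1 ∨ G.Adj a.1 b.1)) ↔ G.Adj a.1 b.1
  constructor
  · rintro ⟨h1, h2 | h2⟩
    · exact absurd (Subtype.ext h2) h1
    · exact h2
  · intro h
    exact ⟨fun h1 => h.ne (congrArg Subtype.val h1), Or.inr h⟩

/-- the simple graph of the whole graph -/
theorem sg_tRG {V : Type} [Finite V] (G : SimpleGraph V) (h : (univ : Set V).Nonempty) :
    Nonempty ((tRG G h).sg ≃g G) := by
  refine ⟨⟨Equiv.Set.univ V, ?_⟩⟩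
  intro a b
  show G.Adj a.1 b.1 ↔ (a ≠ b ∧ (a.1 = b.1 ∨ G.Adj a.1 b.1))
  constructor
  · intro h
    exact ⟨fun h1 => h.ne (congrArg Subtype.val h1), Or.inr h⟩
  · rintro ⟨h1, h2 | h2⟩
    · exact absurd (Subtype.ext h2) h1
    · exact h2

theorem tr_tRG {n : ℕ} (H : SimpleGraph (Fin n)) (h : (univ : Set (Fin n)).Nonempty) :
    (tRG H h).tr (Equiv.Set.univ (Fin n)) = H := by
  ext a b
  show (a ≠ b ∧ (a = b ∨ H.Adj a b)) ↔ H.Adj a b
  constructor
  · rintro ⟨h1, h2 | h2⟩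
    · exact absurd h2 h1
    · exact h2
  · intro h
    exact ⟨h.ne, Or.inr h⟩

/-- The clique graph of `H`, with vertex set the maximal cliques as finite sets. -/
abbrev kk {n : ℕ} (H : SimpleGraph (Fin n)) :=
  (SimpleGraph.fromRel
    (fun s t : {c : Finset (Fin n) //
        H.IsClique (c : Set (Fin n)) ∧
        ∀ d : Finset (Fin n), H.IsClique (d : Set (Fin n)) → c ⊆ d → d = c} =>
      (s.1 ∩ t.1).Nonempty))

theorem kk_iso {n : ℕ} (H : SimpleGraph (Fin n)) (h : (univ : Set (Fin n)).Nonempty) :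
    Nonempty (kk H ≃g (tRG H h).K.sg) := by
  have h1 := br_iso (tRG H h) (Equiv.Set.univ (Fin n))
  rw [tr_tRG H h] at h1
  exact h1

/-- the converse of `frozen_of_null` -/
theorem null_of_frozen : ∀ (n : ℕ) {V : Type} [Finite V] (G : SimpleGraph V)
    (hne : (univ : Set V).Nonempty) (k : ℕ → ℕ) (H : (i : ℕ) → SimpleGraph (Fin (k i))),
    Nonempty (G ≃g H 0) → (∀ i < n, Nonempty (kk (H i) ≃g H (i + 1))) → k n = 1 →
    (tRG G hne).Null := by
  intro n
  induction n with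
  | zero =>
    intro V _ G hne k H h0 _ h1
    obtain ⟨e⟩ := h0
    refine ⟨0, ⟨fun a b => ?_⟩⟩
    have h2 : (e a.1) = (e b.1) := by
      have : Subsingleton (Fin (k 0)) := by
        rw [h1]
        infer_instance
      exact Subsingleton.elim _ _
    exact Subtype.ext (e.injective h2)
  | succ n ih =>
    intro V _ G hne k H h0 h1 h2
    obtain ⟨e0⟩ := h0
    have hne0 : (univ : Set (Fin (k 0))).Nonempty := by
      obtain ⟨v, _⟩ := hne
      exact ⟨e0 v, mem_univ _⟩
    obtain ⟨e1⟩ := h1 0 (by omega)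
    obtain ⟨e2⟩ := kk_iso (H 0) hne0
    have hne1 : (univ : Set (Fin (k 1))).Nonempty := by
      obtain ⟨Q⟩ := (tRG (H 0) hne0).K.ne
      exact ⟨e1 (e2.symm Q), mem_univ _⟩
    have h3 : (tRG (H 1) hne1).Null :=
      ih (H 1) hne1 (fun i => k (i + 1)) (fun i => H (i + 1)) ⟨SimpleGraph.Iso.refl⟩
        (fun i hi => h1 (i + 1) (by omega)) h2
    obtain ⟨e3⟩ := sg_tRG (H 1) hne1
    have h4 : (tRG (H 0) hne0).K.Null := null_of_sg_iso (e2.comp (e1.symm.comp e3)) h3
    have h5 : (tRG (H 0) hne0).Null := (null_it_iff 1 _).mp h4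
    obtain ⟨e4⟩ := sg_tRG (H 0) hne0
    obtain ⟨e5⟩ := sg_tRG G hne
    exact null_of_sg_iso (e5.symm.comp (e0.symm.comp e4)) h5

end Pool.Agent.CLQ
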