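import Pool.Agent.CLQ.BR
import Pool.Agent.CLQD.D0

/-!
# CLQ, module KS: removal of a tight strip, and the interface with the disc side
-/

set_option autoImplicit false

open Set

namespace Pool.Agent.CLQ

/-- What the abstract part delivers: at level `s` the iterated lift of the shortcut map is adjacent
to the identity. -/
def StA : Prop := ∀ (M : RG) (s : ℕ) (e w x : ℕ → M.V), Strip M s e w x → ∀ psi : M.V → M.V,
  (∀ i, 1 ≤ i → i ≤ s + 1 → psi (e i) = x (i - 1)) →
  (∀ v, (∀ i, 1 ≤ i → i ≤ s + 1 → v ≠ e i) → psi v = v) →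
  ∃ F, LftN s M M psi F ∧ AdjM (it s M) (it s M) F id

section chains

variable {M : RG}

theorem ch_trans : ∀ {a b : ℕ} {x y z : M.V}, M.Ch a x y → M.Ch b y z → M.Ch (a + b) x z
  | 0, b, x, y, z, h, h' => by
    have e : x = y := h
    rw [e, Nat.zero_add]
    exact h'
  | a + 1, b, x, y, z, ⟨u, hxu, huy⟩, h' => by
    rw [show a + 1 + b = (a + b) + 1 by ring]
    exact ⟨u, hxu, ch_trans huy h'⟩

theorem ch_walk (p : ℕ → M.V) : ∀ (k i : ℕ), (∀ t, t < k → M.r (p (i + t)) (p (i + t + 1))) →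
    M.Ch k (p i) (p (i + k))
  | 0, i, _ => rfl
  | k + 1, i, h => by
    refine ⟨p (i + 1), h 0 (by omega), ?_⟩
    have h1 := ch_walk p k (i + 1) (fun t ht => by
      have := h (t + 1) (by omega)
      rw [show i + (t + 1) = i + 1 + t by ring] at this
      exact this)
    rw [show i + 1 + k = i + (k + 1) by ring] at h1
    exact h1

variable {s : ℕ} {e w x : ℕ → M.V}

theorem Strip.ce (hS : Strip M s e w x) (i k : ℕ) (h : i + k ≤ s + 2) :
    M.Ch k (e i) (e (i + k)) :=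
  ch_walk e k i (fun t ht => hS.ee (i + t) (by omega))

theorem Strip.cw (hS : Strip M s e w x) (i k : ℕ) (h : i + k ≤ s + 1) :
    M.Ch k (w i) (w (i + k)) :=
  ch_walk w k i (fun t ht => hS.ww (i + t) (by omega))

theorem Strip.cx (hS : Strip M s e w x) (i k : ℕ) (h : i + k ≤ s) :
    M.Ch k (x i) (x (i + k)) :=
  ch_walk x k i (fun t ht => hS.xx (i + t) (by omega))

theorem Strip.e_inj (hS : Strip M s e w x) {a b : ℕ} (hab : a < b) (hb : b ≤ s + 1) :
    e a ≠ e b := by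
  intro h
  have h1 := hS.ce 0 a (by omega)
  have h2 := hS.ce b (s + 1 - b) (by omega)
  rw [Nat.zero_add, h] at h1
  rw [show b + (s + 1 - b) = s + 1 by omega] at h2
  have h3 := hS.t1 _ (ch_trans h1 h2)
  omega

theorem Strip.e_two (hS : Strip M s e w x) {k : ℕ} (h1 : 1 ≤ k) (h2 : k ≤ s + 1) :
    e (s + 2) ≠ e k := by
  intro h
  have h3 := hS.ce 1 (k - 1) (by omega)
  rw [show 1 + (k - 1) = k by omega, ← h] at h3
  have h4 := hS.t2 _ h3
  omega

theorem Strip.w_ne (hS : Strip M s e w x) {j k : ℕ} (hj : j ≤ s + 1) (h1 : 1 ≤ k)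
    (h2 : k ≤ s + 1) : w j ≠ e k := by
  intro h
  have a1 := hS.cw 0 j (by omega)
  have a2 := hS.ce k (s + 1 - k) (by omega)
  rw [Nat.zero_add, h] at a1
  rw [show k + (s + 1 - k) = s + 1 by omega] at a2
  have a3 := hS.t3 _ (ch_trans a1 a2)
  have b1 := hS.ce 1 (k - 1) (by omega)
  have b2 := hS.cw j (s + 1 - j) (by omega)
  rw [show 1 + (k - 1) = k by omega, ← h] at b1
  rw [show j + (s + 1 - j) = s + 1 by omega] at b2
  have b3 := hS.t4 _ (ch_trans b1 b2)
  omega

theorem Strip.x_ne (hS : Strip M s e w x) {j k : ℕ} (hj : j ≤ s) (h1 : 1 ≤ k)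
    (h2 : k ≤ s + 1) : x j ≠ e k := by
  intro h
  have a1 := hS.cx 0 j (by omega)
  have a2 := hS.ce k (s + 1 - k) (by omega)
  rw [Nat.zero_add, h, hS.x0] at a1
  rw [show k + (s + 1 - k) = s + 1 by omega] at a2
  have a3 := hS.t3 _ (ch_trans a1 a2)
  have b1 := hS.ce 1 (k - 1) (by omega)
  have b2 := hS.cx j (s - j) (by omega)
  rw [show 1 + (k - 1) = k by omega, ← h] at b1
  rw [show j + (s - j) = s by omega, hS.xs] at b2
  have b3 := hS.t4 _ (ch_trans b1 b2)
  omega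

/-- the shortcut map is weak -/
theorem Strip.wk_psi (hS : Strip M s e w x) {psi : M.V → M.V}
    (hp1 : ∀ i, 1 ≤ i → i ≤ s + 1 → psi (e i) = x (i - 1))
    (hp2 : ∀ v, (∀ i, 1 ≤ i → i ≤ s + 1 → v ≠ e i) → psi v = v) : Wk M M psi := by
  have key : ∀ j v, 1 ≤ j → j ≤ s + 1 → M.r (e j) v → M.r (x (j - 1)) (psi v) := by
    intro j v h1 h2 hv
    rcases hS.nb j v h1 h2 hv with h | h | h | h | h
    · rcases Nat.lt_or_ge 1 j with h3 | h3
      · rw [h, hp1 (j - 1) (by omega) (by omega)]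
        have h4 := hS.xx (j - 1 - 1) (by omega)
        rw [show j - 1 - 1 + 1 = j - 1 by omega] at h4
        exact M.symm h4
      · have h4 : j = 1 := by omega
        subst h4
        rw [h, hp2 (e (1 - 1)) (fun i h5 h6 => hS.e_inj (by omega) h6)]
        show M.r (x 0) (e 0)
        rw [hS.x0]
        exact M.symm (hS.ew 0 (by omega))
    · rw [h, hp1 j h1 h2]
      exact M.refl _
    · rcases Nat.lt_or_ge s j with h3 | h3
      · have h4 : j = s + 1 := by omega
        subst h4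
        rw [h, hp2 (e (s + 1 + 1)) (fun i h5 h6 => hS.e_two h5 h6)]
        show M.r (x s) (e (s + 1 + 1))
        rw [hS.xs]
        exact M.symm (hS.ew' (s + 1) (by omega))
      · rw [h, hp1 (j + 1) (by omega) (by omega)]
        have h4 := hS.xx (j - 1) (by omega)
        rw [show j - 1 + 1 = j by omega] at h4
        exact h4
    · rw [h, hp2 (w (j - 1)) (fun i h5 h6 => hS.w_ne (by omega) h5 h6)]
      exact (hS.xw j h1 h2).1
    · rw [h, hp2 (w j) (fun i h5 h6 => hS.w_ne (by omega) h5 h6)]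
      exact (hS.xw j h1 h2).2
  intro u v huv
  by_cases hu : ∃ j, 1 ≤ j ∧ j ≤ s + 1 ∧ u = e j
  · obtain ⟨j, h1, h2, h3⟩ := hu
    rw [h3, hp1 j h1 h2]
    exact key j v h1 h2 (h3 ▸ huv)
  · by_cases hv : ∃ j, 1 ≤ j ∧ j ≤ s + 1 ∧ v = e j
    · obtain ⟨j, h1, h2, h3⟩ := hv
      rw [h3, hp1 j h1 h2]
      exact M.symm (key j u h1 h2 (h3 ▸ M.symm huv))
    · rw [hp2 u (fun i h1 h2 h3 => hu ⟨i, h1, h2, h3⟩), hp2 v (fun i h1 h2 h3 => hv ⟨i, h1, h2, h3⟩)]
      exact huv

/-- a tight strip can be removed -/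
theorem strip_null (hA : StA) (hS : Strip M s e w x) {M' : RG} (i : M'.V → M.V)
    (hi : ∀ a b, M'.r a b ↔ M.r (i a) (i b))
    (him : ∀ v, (∀ j, 1 ≤ j → j ≤ s + 1 → v ≠ e j) → ∃ a, i a = v)
    (hM' : M'.Null) : M.Null := by
  classical
  obtain ⟨psi, hp1, hp2⟩ : ∃ psi : M.V → M.V,
      (∀ i, 1 ≤ i → i ≤ s + 1 → psi (e i) = x (i - 1)) ∧
      (∀ v, (∀ i, 1 ≤ i → i ≤ s + 1 → v ≠ e i) → psi v = v) := by
    refine ⟨fun v => if h : ∃ j, 1 ≤ j ∧ j ≤ s + 1 ∧ v = e j then x (h.choose - 1) else v,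
      ?_, ?_⟩
    · intro i h1 h2
      have h : ∃ j, 1 ≤ j ∧ j ≤ s + 1 ∧ e i = e j := ⟨i, h1, h2, rfl⟩
      have h3 := h.choose_spec
      have h4 : h.choose = i := by
        rcases Nat.lt_trichotomy h.choose i with h5 | h5 | h5
        · exact absurd h3.2.2.symm (hS.e_inj h5 h2)
        · exact h5
        · exact absurd h3.2.2 (hS.e_inj h5 h3.2.1)
      show (if h : ∃ j, 1 ≤ j ∧ j ≤ s + 1 ∧ e i = e j then x (h.choose - 1) else e i) = x (i - 1)
      rw [dif_pos h, h4]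
    · intro v hv
      have h : ¬ ∃ j, 1 ≤ j ∧ j ≤ s + 1 ∧ v = e j := fun ⟨j, h1, h2, h3⟩ => hv j h1 h2 h3
      exact dif_neg h
  have hpsi := hS.wk_psi hp1 hp2
  have himg : ∀ v, ∃ a, i a = psi v := by
    intro v
    apply him
    intro j h1 h2
    by_cases hv : ∃ j, 1 ≤ j ∧ j ≤ s + 1 ∧ v = e j
    · obtain ⟨k, g1, g2, g3⟩ := hv
      rw [g3, hp1 k g1 g2]
      exact hS.x_ne (by omega) h1 h2
    · rw [hp2 v (fun i h1 h2 h3 => hv ⟨i, h1, h2, h3⟩)]
      exact fun h3 => hv ⟨j, h1, h2, h3⟩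
  choose r hr using himg
  obtain ⟨F, hF, hF'⟩ := hA M s e w x hS psi hp1 hp2
  have hir : i ∘ r = psi := funext hr
  refine null_of_lftN_adj (i := i) (r := r) (fun a b h => (hi a b).mp h) ?_ (n := s) (F := F) ?_
    hF' hM'
  · intro u v huv
    rw [hi, hr, hr]
    exact hpsi u v huv
  · rw [hir]
    exact hF

end chains

/-- a strip inside a vertex subset, as a strip of the induced reflexive graph -/
theorem strip_of_strp {V : Type} [Finite V] (G : SimpleGraph V) {S : Set V} {s : ℕ}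
    {e w x : ℕ → V} (hS : CLQD.Strp G S s e w x) (hne : S.Nonempty) :
    Strip (ofSG G S hne) s (fun i => ⟨e (min i (s + 2)), hS.eS _ (min_le_right _ _)⟩)
      (fun i => ⟨w (min i (s + 1)), hS.wS _ (min_le_right _ _)⟩)
      (fun i => ⟨x (min i s), hS.xS _ (min_le_right _ _)⟩) := by
  have me : ∀ i, i ≤ s + 2 → min i (s + 2) = i := fun i h => min_eq_left h
  have mw : ∀ i, i ≤ s + 1 → min i (s + 1) = i := fun i h => min_eq_left h
  have mx : ∀ i, i ≤ s → min i s = i := fun i h => min_eq_left h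
  -- chains
  have hch : ∀ (a b : V) (ha : a ∈ S) (hb : b ∈ S), ((a = e 0 ∧ b = e (s + 1)) ∨
      (a = e 1 ∧ b = e (s + 2)) ∨ (a = w 0 ∧ b = e (s + 1)) ∨ (a = e 1 ∧ b = w (s + 1)) ∨
      (a = e 0 ∧ b = w s) ∨ (a = w 1 ∧ b = e (s + 2))) → ∀ k,
      (ofSG G S hne).Ch k ⟨a, ha⟩ ⟨b, hb⟩ → s + 1 ≤ k := by
    intro a b ha hb hab k hk
    obtain ⟨f, f1, f2, f3⟩ := hS.tight a b hab
    have h1 := ch_lip (ofSG G S hne) (f := fun v => f v.1) (by
      intro u v huv
      rcases huv with h | h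
      · show f v.1 ≤ f u.1 + 1
        rw [h]
        omega
      · exact f3 u.1 u.2 v.1 v.2 h) k _ _ hk
    have h2 : f b ≤ f a + k := h1
    omega
  refine
    { s1 := hS.s1
      ee := fun i hi => ?_
      ww := fun i hi => ?_
      ew := fun i hi => ?_
      ew' := fun i hi => ?_
      nb := fun i v h1 h2 h3 => ?_
      x0 := ?_
      xs := ?_
      xx := fun i hi => ?_
      xw := fun i h1 h2 => ?_
      t1 := fun k => hch _ _ _ _ (Or.inl ⟨?_, ?_⟩) k
      t2 := fun k => hch _ _ _ _ (Or.inr (Or.inl ⟨?_, ?_⟩)) k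
      t3 := fun k => hch _ _ _ _ (Or.inr (Or.inr (Or.inl ⟨?_, ?_⟩))) k
      t4 := fun k => hch _ _ _ _ (Or.inr (Or.inr (Or.inr (Or.inl ⟨?_, ?_⟩)))) k
      t5 := fun k => hch _ _ _ _ (Or.inr (Or.inr (Or.inr (Or.inr (Or.inl ⟨?_, ?_⟩))))) k
      t6 := fun k => hch _ _ _ _ (Or.inr (Or.inr (Or.inr (Or.inr (Or.inr ⟨?_, ?_⟩))))) k }
  · show e (min i (s + 2)) = e (min (i + 1) (s + 2)) ∨ G.Adj (e (min i (s + 2)))
      (e (min (i + 1) (s + 2)))
    rw [me i (by omega), me (i + 1) (by omega)]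
    exact Or.inr (hS.ee i hi)
  · show w (min i (s + 1)) = w (min (i + 1) (s + 1)) ∨ G.Adj (w (min i (s + 1)))
      (w (min (i + 1) (s + 1)))
    rw [mw i (by omega), mw (i + 1) (by omega)]
    exact Or.inr (hS.ww i hi)
  · show e (min i (s + 2)) = w (min i (s + 1)) ∨ G.Adj (e (min i (s + 2))) (w (min i (s + 1)))
    rw [me i (by omega), mw i (by omega)]
    exact Or.inr (hS.ew i hi)
  · show e (min (i + 1) (s + 2)) = w (min i (s + 1)) ∨
      G.Adj (e (min (i + 1) (s + 2))) (w (min i (s + 1)))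
    rw [me (i + 1) (by omega), mw i (by omega)]
    exact Or.inr (hS.ew' i hi)
  · have h4 : e (min i (s + 2)) = v.1 ∨ G.Adj (e (min i (s + 2))) v.1 := h3
    rw [me i (by omega)] at h4
    rcases h4 with h4 | h4
    · refine Or.inr (Or.inl (Subtype.ext ?_))
      show v.1 = e (min i (s + 2))
      rw [me i (by omega)]
      exact h4.symm
    · rcases hS.nb i h1 h2 v.1 v.2 h4 with h5 | h5 | h5 | h5
      · refine Or.inl (Subtype.ext ?_)
        show v.1 = e (min (i - 1) (s + 2))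
        rw [me (i - 1) (by omega)]
        exact h5
      · refine Or.inr (Or.inr (Or.inl (Subtype.ext ?_)))
        show v.1 = e (min (i + 1) (s + 2))
        rw [me (i + 1) (by omega)]
        exact h5
      · refine Or.inr (Or.inr (Or.inr (Or.inl (Subtype.ext ?_))))
        show v.1 = w (min (i - 1) (s + 1))
        rw [mw (i - 1) (by omega)]
        exact h5
      · refine Or.inr (Or.inr (Or.inr (Or.inr (Subtype.ext ?_))))
        show v.1 = w (min i (s + 1))
        rw [mw i (by omega)]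
        exact h5
  · apply Subtype.ext
    show x (min 0 s) = w (min 0 (s + 1))
    rw [mx 0 (by omega), mw 0 (by omega)]
    exact hS.x0
  · apply Subtype.ext
    show x (min s s) = w (min (s + 1) (s + 1))
    rw [mx s le_rfl, mw (s + 1) le_rfl]
    exact hS.xs
  · show x (min i s) = x (min (i + 1) s) ∨ G.Adj (x (min i s)) (x (min (i + 1) s))
    rw [mx i (by omega), mx (i + 1) (by omega)]
    exact hS.xx i hi
  · have h3 := hS.xw i h1 h2
    constructor
    · show x (min (i - 1) s) = w (min (i - 1) (s + 1)) ∨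
        G.Adj (x (min (i - 1) s)) (w (min (i - 1) (s + 1)))
      rw [mx (i - 1) (by omega), mw (i - 1) (by omega)]
      exact h3.1
    · show x (min (i - 1) s) = w (min i (s + 1)) ∨
        G.Adj (x (min (i - 1) s)) (w (min i (s + 1)))
      rw [mx (i - 1) (by omega), mw i (by omega)]
      exact h3.2
  · rw [me 0 (by omega)]
  · rw [me (s + 1) (by omega)]
  · rw [me 1 (by omega)]
  · rw [me (s + 2) (by omega)]
  · rw [mw 0 (by omega)]
  · rw [me (s + 1) (by omega)]
  · rw [me 1 (by omega)]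
  · rw [mw (s + 1) (by omega)]
  · rw [me 0 (by omega)]
  · rw [mw s (by omega)]
  · rw [mw 1 (by omega)]
  · rw [me (s + 2) (by omega)]

/-- the nullity of induced subgraphs has the three properties used on the disc side -/
theorem kside (hA : StA) {V : Type} [Finite V] (G : SimpleGraph V) :
    CLQD.KSide G (fun S => ∃ h : S.Nonempty, (ofSG G S h).Null) := by
  refine ⟨fun v => ⟨_, null_singleton G v⟩, ?_, ?_⟩
  · rintro S p q hp hq hpq hd ⟨h, hn⟩
    refine ⟨⟨p, hp⟩, ?_⟩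
    refine (null_of_dominated G ⟨p, hp⟩ hq hp hpq.ne.symm ?_ h).mp hn
    intro y hy h1
    rcases h1 with h1 | h1
    · rw [← h1]
      exact Or.inr hpq.symm
    · exact hd y hy h1
  · rintro S s e w x hS ⟨h, hn⟩
    have hne : S.Nonempty := ⟨_, hS.eS 0 (by omega)⟩
    refine ⟨hne, ?_⟩
    refine strip_null hA (strip_of_strp G hS hne)
      (M' := ofSG G (S \ {v | ∃ i, 1 ≤ i ∧ i ≤ s + 1 ∧ v = e i}) h)
      (fun a => ⟨a.1, a.2.1⟩) (fun a b => Iff.rfl) ?_ hn
    intro v hv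
    refine ⟨⟨v.1, v.2, ?_⟩, rfl⟩
    rintro ⟨i, h1, h2, h3⟩
    refine hv i h1 h2 (Subtype.ext ?_)
    show v.1 = e (min i (s + 2))
    rw [min_eq_left (by omega : i ≤ s + 2)]
    exact h3

end Pool.Agent.CLQ
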