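import Pool.Agent.CLQ.CAL

/-!
# CLQ, module L1: windows and defects at the next level
-/

set_option autoImplicit false

open Set

namespace Pool.Agent.CLQ

section chain

variable {X : RG}

theorem ch_one {x y : X.V} (h : X.r x y) : X.Ch 1 x y := ⟨y, h, rfl⟩

theorem ch_snoc : ∀ {k : ℕ} {x y z : X.V}, X.Ch k x y → X.r y z → X.Ch (k + 1) x z
  | 0, x, y, z, h, h' => by
    have e : x = y := h
    rw [e]
    exact ch_one h'
  | k + 1, x, y, z, ⟨u, h1, h2⟩, h' => ⟨u, h1, ch_snoc h2 h'⟩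

theorem ch_symm : ∀ {k : ℕ} {x y : X.V}, X.Ch k x y → X.Ch k y x
  | 0, x, y, h => by
    have e : x = y := h
    exact e.symm
  | k + 1, x, y, ⟨u, h1, h2⟩ => ch_snoc (ch_symm h2) (X.symm h1)

/-- chains of cliques give chains of elements -/
theorem ch_K : ∀ {k : ℕ} {Q Q' : X.K.V} {u v : X.V}, X.K.Ch k Q Q' → u ∈ Q.1 → v ∈ Q'.1 →
    X.Ch (k + 1) u v
  | 0, Q, Q', u, v, h, hu, hv => by
    have e : Q = Q' := h
    subst e
    exact ch_one (Q.2.1 u hu v hv)
  | k + 1, Q, Q', u, v, ⟨P, ⟨z, hz1, hz2⟩, h2⟩, hu, hv =>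
    ⟨z, Q.2.1 u hu z hz1, ch_K h2 hz2 hv⟩

end chain

section windows

variable {X : RG} {n : ℤ} {W : ℤ → X.V → Prop}

/-- windows of adjacent elements differ by at most one -/
theorem St.near (S : St X n W) {a b : ℤ} {u v : X.V} (hu : W a u) (hv : W b v) (h : X.r u v)
    (hab : ¬ (a = 0 ∧ b = n)) (hba : ¬ (b = 0 ∧ a = n)) : b - 1 ≤ a ∧ a - 1 ≤ b := by
  constructor
  · by_contra hc
    have h1 := S.far a b u v 1 (by omega) hab hu hv (ch_one h)
    push_cast at h1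
    omega
  · by_contra hc
    have h1 := S.far b a v u 1 (by omega) hba hv hu (ch_one (X.symm h))
    push_cast at h1
    omega

/-- windows are disjoint -/
theorem St.uniq (S : St X n W) {a b : ℤ} {u : X.V} (hu : W a u) (hv : W b u)
    (hab : ¬ (a = 0 ∧ b = n)) (hba : ¬ (b = 0 ∧ a = n)) : a = b := by
  rcases lt_trichotomy a b with h | h | h
  · have h1 := S.far a b u u 0 h hab hu hv rfl
    push_cast at h1
    omega
  · exact h
  · have h1 := S.far b a u u 0 h hba hv hu rfl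
    push_cast at h1
    omega

theorem st_K (S : St X n W) : St X.K (n - 1) (KW X W) := by
  constructor
  · rintro i Q ⟨⟨u, _, hu⟩, ⟨v, _, hv⟩⟩
    have h1 := S.rng i u hu
    have h2 := S.rng (i + 1) v hv
    exact ⟨h1.1, by omega⟩
  · rintro a b Q Q' k hab hn ⟨⟨u, hu, hu'⟩, _⟩ ⟨_, ⟨v, hv, hv'⟩⟩ hk
    have h1 := S.far a (b + 1) u v (k + 1) (by omega) (by omega) hu' hv' (ch_K hk hu hv)
    push_cast at h1
    omega

theorem st_rv (S : St X n W) : St X n (rv n W) := by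
  constructor
  · intro i u hu
    have h1 := S.rng (n - i) u hu
    omega
  · intro a b u v k hab hn hu hv hk
    have h1 := S.far (n - b) (n - a) v u k (by omega) (by omega) hv hu (ch_symm hk)
    omega

theorem kw_rv : KW X (rv n W) = rv (n - 1) (KW X W) := by
  funext i
  funext Q
  apply propext
  show ((∃ u ∈ Q.1, W (n - i) u) ∧ ∃ u ∈ Q.1, W (n - (i + 1)) u) ↔
    ((∃ u ∈ Q.1, W (n - 1 - i) u) ∧ ∃ u ∈ Q.1, W (n - 1 - i + 1) u)
  rw [show n - (i + 1) = n - 1 - i by ring, show n - 1 - i + 1 = n - i by ring]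
  exact And.comm

/-- the neutral elements at the next level -/
theorem lm_K (S : St X n W) {l : X.V → X.V} (L : Lm X n W l) :
    ∃ l', Lm X.K (n - 1) (KW X W) l' := by
  classical
  -- the clique
  have hB : ∀ Q : X.K.V, ∃ R : X.K.V, ∀ k, 1 ≤ k → k ≤ n - 2 → KW X W k Q →
      (∀ y ∈ Q.1, ¬ W (k + 1) y → y ∈ R.1) ∧
      (∀ a ∈ Q.1, (W k a ∨ W (k + 1) a) → l a ∈ R.1) := by
    intro Q
    by_cases hQ : ∃ k, 1 ≤ k ∧ k ≤ n - 2 ∧ KW X W k Q
    · obtain ⟨k, h1, h2, hk⟩ := hQ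
      obtain ⟨⟨a0, ha0, ha0'⟩, ⟨b0, hb0, hb0'⟩⟩ := hk
      -- no element of the window k + 2
      have hno : ∀ y ∈ Q.1, ¬ W (k + 2) y := by
        intro y hy hy'
        have h3 := S.near ha0' hy' (Q.2.1 a0 ha0 y hy) (by omega) (by omega)
        omega
      have key : ∀ a ∈ Q.1, ∀ i, (i = k ∨ i = k + 1) → W i a → ∀ y, X.r a y → ¬ W (i + 1) y →
          X.r (l a) y := by
        intro a _ i hi ha' y hay hy
        exact L.adj i a y (by omega) (by omega) ha' hay hy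
      have hcl : X.Clq ({y | y ∈ Q.1 ∧ ¬ W (k + 1) y} ∪
          {y | ∃ a ∈ Q.1, (W k a ∨ W (k + 1) a) ∧ y = l a}) := by
        have c1 : ∀ y ∈ Q.1, ¬ W (k + 1) y → ∀ a ∈ Q.1, (W k a ∨ W (k + 1) a) →
            X.r (l a) y := by
          intro y hy hy' a ha ha'
          rcases ha' with ha' | ha'
          · exact key a ha k (Or.inl rfl) ha' y (Q.2.1 a ha y hy) hy'
          · refine key a ha (k + 1) (Or.inr rfl) ha' y (Q.2.1 a ha y hy) ?_
            rw [show k + 1 + 1 = k + 2 by ring]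
            exact hno y hy
        have c2 : ∀ a ∈ Q.1, ∀ b ∈ Q.1, ∀ i j, (i = k ∨ i = k + 1) → (j = k ∨ j = k + 1) →
            W i a → W j b → i ≠ j + 1 → X.r (l a) (l b) := by
          intro a ha b hb i j hi hj ha' hb' hij
          have h3 : X.r (l b) a := by
            refine key b hb j hj hb' a (Q.2.1 b hb a ha) (fun h => ?_)
            exact hij (S.uniq ha' h (by omega) (by omega))
          have h4 : ¬ W (i + 1) (l b) := L.neut j b (by omega) (by omega) hb' (i + 1)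
          exact key a ha i hi ha' (l b) (X.symm h3) h4
        have c3 : ∀ a ∈ Q.1, ∀ b ∈ Q.1, (W k a ∨ W (k + 1) a) → (W k b ∨ W (k + 1) b) →
            X.r (l a) (l b) := by
          intro a ha b hb ha' hb'
          rcases ha' with ha' | ha' <;> rcases hb' with hb' | hb'
          · exact c2 a ha b hb k k (Or.inl rfl) (Or.inl rfl) ha' hb' (by omega)
          · exact c2 a ha b hb k (k + 1) (Or.inl rfl) (Or.inr rfl) ha' hb' (by omega)
          · exact X.symm (c2 b hb a ha k (k + 1) (Or.inl rfl) (Or.inr rfl) hb' ha' (by omega))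
          · exact c2 a ha b hb (k + 1) (k + 1) (Or.inr rfl) (Or.inr rfl) ha' hb' (by omega)
        intro x hx y hy
        rcases hx with ⟨hx, hx'⟩ | ⟨a, ha, ha', rfl⟩
        · rcases hy with ⟨hy, hy'⟩ | ⟨b, hb, hb', rfl⟩
          · exact Q.2.1 x hx y hy
          · exact X.symm (c1 x hx hx' b hb hb')
        · rcases hy with ⟨hy, hy'⟩ | ⟨b, hb, hb', rfl⟩
          · exact c1 y hy hy' a ha ha'
          · exact c3 a ha b hb ha' hb'
      obtain ⟨R, hR, hsub⟩ := X.exists_mc _ hcl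
      refine ⟨⟨R, hR⟩, fun k' g1 g2 hk' => ?_⟩
      have hkk : k' = k := by
        obtain ⟨⟨a1, ha1, ha1'⟩, ⟨b1, hb1, hb1'⟩⟩ := hk'
        have e1 := S.near ha0' hb1' (Q.2.1 a0 ha0 b1 hb1) (by omega) (by omega)
        have e2 := S.near hb0' ha1' (Q.2.1 b0 hb0 a1 ha1) (by omega) (by omega)
        omega
      subst hkk
      exact ⟨fun y hy hy' => hsub (Or.inl ⟨hy, hy'⟩),
        fun a ha ha' => hsub (Or.inr ⟨a, ha, ha', rfl⟩)⟩
    · exact ⟨Q, fun k h1 h2 hk => absurd ⟨k, h1, h2, hk⟩ hQ⟩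
  choose l' hl' using hB
  refine ⟨l', ?_⟩
  constructor
  · -- neutral
    intro k Q h1 h2 hk j hj
    obtain ⟨p1, p2⟩ := hl' Q k h1 (by omega) hk
    obtain ⟨⟨a, ha, ha'⟩, ⟨b, hb, hb'⟩⟩ := hk
    have haR : a ∈ (l' Q).1 := by
      refine p1 a ha (fun h => ?_)
      have := S.uniq ha' h (by omega) (by omega)
      omega
    have hlaR : l a ∈ (l' Q).1 := p2 a ha (Or.inl ha')
    have hlbR : l b ∈ (l' Q).1 := p2 b hb (Or.inr hb')
    have key : ∀ i v, v ∈ (l' Q).1 → W i v → i = k := by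
      intro i v hv hi
      have e1 := S.near ha' hi ((l' Q).2.1 a haR v hv) (by omega) (by omega)
      by_contra hne
      rcases (show i = k + 1 ∨ i = k - 1 by omega) with h | h
      · have e2 := L.up k i a v 1 h1 (by omega) (by omega) (by omega) ha' hi
          (ch_one ((l' Q).2.1 _ hlaR v hv))
        push_cast at e2
        omega
      · have e2 := L.dn (k + 1) i b v 1 (by omega) (by omega) (by omega) hb' hi
          (ch_one ((l' Q).2.1 _ hlbR v hv))
        push_cast at e2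
        omega
    obtain ⟨⟨u, hu, hu'⟩, ⟨v, hv, hv'⟩⟩ := hj
    have e1 := key j u hu hu'
    have e2 := key (j + 1) v hv hv'
    omega
  · -- adjacency
    rintro k Q Q' h1 h2 hk ⟨y, hy, hy2⟩ hQ'
    obtain ⟨p1, p2⟩ := hl' Q k h1 (by omega) hk
    by_cases hyk : W (k + 1) y
    · refine ⟨l y, p2 y hy (Or.inr hyk), ?_⟩
      apply Q'.2.2
      intro z hz
      refine L.adj (k + 1) y z (by omega) (by omega) hyk (Q'.2.1 y hy2 z hz) (fun h => hQ' ?_)
      exact ⟨⟨y, hy2, hyk⟩, ⟨z, hz, h⟩⟩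
    · exact ⟨y, p1 y hy hyk, hy2⟩
  · -- up
    rintro i j Q Q' k h1 h2 hij hn hQ hQ' hk
    obtain ⟨p1, p2⟩ := hl' Q i h1 (by omega) hQ
    obtain ⟨⟨a, ha, ha'⟩, _⟩ := hQ
    obtain ⟨_, ⟨v, hv, hv'⟩⟩ := hQ'
    have e := L.up i (j + 1) a v (k + 1) h1 (by omega) (by omega) (by omega) ha' hv'
      (ch_K hk (p2 a ha (Or.inl ha')) hv)
    push_cast at e
    omega
  · -- down
    rintro i j Q Q' k h1 h2 hij hQ hQ' hk
    obtain ⟨p1, p2⟩ := hl' Q i h1 (by omega) hQ
    obtain ⟨_, ⟨b, hb, hb'⟩⟩ := hQ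
    obtain ⟨⟨v, hv, hv'⟩, _⟩ := hQ'
    have e := L.dn (i + 1) j b v (k + 1) (by omega) (by omega) (by omega) hb' hv'
      (ch_K hk (p2 b hb (Or.inr hb')) hv)
    push_cast at e
    omega

/-- a neutral common element -/
theorem neutral_common (S : St X n W) {l r : X.V → X.V} (L : Lm X n W l)
    (R : Lm X n (rv n W) r) {k : ℤ} {Q Q' : X.K.V} (h1 : 1 ≤ k) (h2 : k ≤ n - 2)
    (hQ : KW X W k Q) (hQ' : KW X W k Q') {u : X.V} (hu : u ∈ Q.1) (hu' : u ∈ Q'.1)
    (hk : W k u ∨ W (k + 1) u) : ∃ y ∈ Q.1, y ∈ Q'.1 ∧ ∀ j, ¬ W j y := by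
  obtain ⟨⟨a, ha, ha'⟩, ⟨b, hb, hb'⟩⟩ := hQ
  obtain ⟨⟨a2, ha2, ha2'⟩, ⟨b2, hb2, hb2'⟩⟩ := hQ'
  rcases hk with hk | hk
  · have hw : rv n W (n - k) u := by
      show W (n - (n - k)) u
      rw [show n - (n - k) = k by ring]
      exact hk
    have key : ∀ (P : X.K.V) (b : X.V), b ∈ P.1 → W (k + 1) b → u ∈ P.1 → r u ∈ P.1 := by
      intro P b hb hb' huP
      apply P.2.2
      intro z hz
      refine R.adj (n - k) u z (by omega) (by omega) hw (P.2.1 u huP z hz) (fun h => ?_)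
      have h3 : W (n - (n - k + 1)) z := h
      have e1 := S.near hb' h3 (P.2.1 b hb z hz) (by omega) (by omega)
      omega
    refine ⟨r u, key Q b hb hb' hu, key Q' b2 hb2 hb2' hu', fun j hj => ?_⟩
    refine R.neut (n - k) u (by omega) (by omega) hw (n - j) ?_
    show W (n - (n - j)) (r u)
    rw [show n - (n - j) = j by ring]
    exact hj
  · have key : ∀ (P : X.K.V) (a : X.V), a ∈ P.1 → W k a → u ∈ P.1 → l u ∈ P.1 := by
      intro P a ha ha' huP
      apply P.2.2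
      intro z hz
      refine L.adj (k + 1) u z (by omega) (by omega) hk (P.2.1 u huP z hz) (fun h => ?_)
      have e1 := S.near ha' h (P.2.1 a ha z hz) (by omega) (by omega)
      omega
    exact ⟨l u, key Q a ha ha' hu, key Q' a2 ha2 ha2' hu',
      fun j => L.neut (k + 1) u (by omega) (by omega) hk j⟩

/-- the main step: defects at the next level -/
theorem df_K (S : St X n W) {l r : X.V → X.V} (L : Lm X n W l) (R : Lm X n (rv n W) r)
    {f : X.V → X.V} (D : Df X n W f) : ∃ F, Lft X X f F ∧ Df X.K (n - 1) (KW X W) F := by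
  obtain ⟨F, hF, hF'⟩ := exists_lft_rule D.wk
  refine ⟨F, hF, hF.wk, ?_⟩
  rintro Q Q' ⟨u, hu, hu'⟩ hn
  -- common elements are not in `F Q`
  have hnF : ∀ y, y ∈ Q.1 → y ∈ Q'.1 → ∃ z ∈ Q.1, ¬ X.r (f z) y := by
    intro y hy hy'
    by_contra hc
    push Not at hc
    exact hn ⟨y, hF' Q y hy hc, hy'⟩
  obtain ⟨z, hz, hzu⟩ := hnF u hu hu'
  obtain ⟨v, hv, huv⟩ : ∃ v ∈ Q'.1, ¬ X.r (f u) v := by
    by_contra hc
    push Not at hc
    exact hn ⟨f u, hF Q u hu, Q'.2.2 _ hc⟩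
  obtain ⟨i, i', hi, hi', hii, q1, q2, q3, q4⟩ := D.df z u (Q.2.1 z hz u hu) hzu
  obtain ⟨j, j', hj, hj', hjj, r1, r2, r3, r4⟩ := D.df u v (Q'.2.1 u hu' v hv) huv
  have hji : j = i' := S.uniq hj hi' (by omega) (by omega)
  subst hji
  -- the neutral element
  have hneut : ∀ k, 1 ≤ k → k ≤ n - 2 → KW X W k Q → KW X W k Q' → (W k u ∨ W (k + 1) u) →
      False := by
    intro k h1 h2 hQ hQ' hk
    obtain ⟨y, hy, hy', hyn⟩ := neutral_common S L R h1 h2 hQ hQ' hu hu' hk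
    obtain ⟨z', hz', hzy⟩ := hnF y hy hy'
    obtain ⟨i2, j2, _, hj2, _⟩ := D.df z' y (Q.2.1 z' hz' y hy) hzy
    exact hyn j2 hj2
  rcases hii with hii | hii
  · -- `z` in the window `j - 1`, `Q` in the window `j - 1`
    have hi2 : i = j - 1 := by omega
    subst hi2
    have hQ : KW X W (j - 1) Q := ⟨⟨z, hz, hi⟩, ⟨u, hu, by
      rw [show j - 1 + 1 = j by ring]; exact hj⟩⟩
    rcases hjj with hjj | hjj
    · subst hjj
      refine ⟨j - 1, j, hQ, ⟨⟨u, hu', hj⟩, ⟨v, hv, hj'⟩⟩, Or.inl (by ring), by omega, by omega,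
        by omega, by omega⟩
    · exfalso
      subst hjj
      refine hneut (j - 1) (by omega) (by omega) hQ ⟨⟨v, hv, hj'⟩, ⟨u, hu', ?_⟩⟩ (Or.inr ?_)
      · rw [show j - 1 + 1 = j by ring]
        exact hj
      · rw [show j - 1 + 1 = j by ring]
        exact hj
  · -- `z` in the window `j + 1`, `Q` in the window `j`
    have hi2 : i = j + 1 := by omega
    subst hi2
    have hQ : KW X W j Q := ⟨⟨u, hu, hj⟩, ⟨z, hz, hi⟩⟩
    rcases hjj with hjj | hjj
    · exfalso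
      subst hjj
      exact hneut j (by omega) (by omega) hQ ⟨⟨u, hu', hj⟩, ⟨v, hv, hj'⟩⟩ (Or.inl hj)
    · subst hjj
      refine ⟨j, j - 1, hQ, ⟨⟨v, hv, hj'⟩, ⟨u, hu', ?_⟩⟩, Or.inr rfl, by omega, by omega,
        by omega, by omega⟩
      rw [show j - 1 + 1 = j by ring]
      exact hj

end windows

/-- no defects with at most one inner window -/
theorem df_end {X : RG} {n : ℤ} {W : ℤ → X.V → Prop} {f : X.V → X.V} (D : Df X n W f)
    (hn : n ≤ 2) : AdjM X X f id := by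
  intro x y hxy
  by_contra hc
  obtain ⟨i, j, _, _, h1, h2, h3, h4, h5⟩ := D.df x y hxy hc
  omega

/-- all levels -/
theorem df_all : ∀ (k : ℕ) {X : RG} {W : ℤ → X.V → Prop} {f : X.V → X.V} {l r : X.V → X.V},
    St X (k + 2) W → Lm X (k + 2) W l → Lm X (k + 2) (rv (k + 2) W) r → Df X (k + 2) W f →
    ∃ F, LftN k X X f F ∧ AdjM (it k X) (it k X) F id
  | 0, X, W, f, l, r, S, L, R, D => ⟨f, rfl, df_end D (by norm_num)⟩
  | k + 1, X, W, f, l, r, S, L, R, D => by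
    obtain ⟨l', L'⟩ := lm_K S L
    obtain ⟨r', R'⟩ := lm_K (st_rv S) R
    obtain ⟨F, hF, D'⟩ := df_K S L R D
    have S' := st_K S
    rw [kw_rv] at R'
    have e : ((k + 1 : ℕ) : ℤ) + 2 - 1 = (k : ℤ) + 2 := by push_cast; ring
    rw [e] at S' L' R' D'
    obtain ⟨F', hF', h⟩ := df_all k S' L' R' D'
    exact ⟨F', ⟨F, hF, hF'⟩, h⟩

end Pool.Agent.CLQ
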