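import Pool.Agent.CLQ.ONE
import Pool.Agent.CLQD.D9

/-!
# CLQ: triangulated discs with a thin collar are clique null
-/

set_option autoImplicit false

open SimpleGraph

namespace Pool.Agent.CLQ

/-- Triangulated discs whose boundary vertices have exactly two neighbours on the boundary and two
in the interior, and whose interior vertices without neighbours on the boundary have degree at
least six, are clique null. -/
theorem disc_clique_null :
  ∀ (V : Type) [Fintype V] [DecidableEq V] (G : SimpleGraph V) [DecidableRel G.Adj],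
    G.Connected →
    (∀ v, 4 ≤ G.degree v) →
    (∀ v, ((G.induce (G.neighborSet v)).Connected ∧
            (∀ w, ((G.induce (G.neighborSet v)).neighborSet w).ncard = 2) ∧
            4 ≤ (G.neighborSet v).ncard) ∨
          ((G.induce (G.neighborSet v)).IsTree ∧
            ∀ w, ((G.induce (G.neighborSet v)).neighborSet w).ncard ≤ 2)) →
    (∃ v, (G.induce (G.neighborSet v)).IsAcyclic) →
    (Fintype.card V : ℤ) - (G.edgeFinset.card : ℤ) + ((G.cliqueFinset 3).card : ℤ) = 1 →
    (∀ v, (G.induce (G.neighborSet v)).IsAcyclic →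
      {u | G.Adj v u ∧ (G.induce (G.neighborSet u)).IsAcyclic}.ncard = 2 ∧
      {u | G.Adj v u ∧ ¬ (G.induce (G.neighborSet u)).IsAcyclic}.ncard = 2) →
    (∀ v, ¬ (G.induce (G.neighborSet v)).IsAcyclic →
      (∀ u, G.Adj v u → ¬ (G.induce (G.neighborSet u)).IsAcyclic) → 6 ≤ G.degree v) →
    ∃ n : ℕ, ∃ k : ℕ → ℕ, ∃ H : (i : ℕ) → SimpleGraph (Fin (k i)),
      Nonempty (G ≃g H 0) ∧
      (∀ i < n, Nonempty
        ((SimpleGraph.fromRel
          (fun s t : {c : Finset (Fin (k i)) //
              (H i).IsClique (c : Set (Fin (k i))) ∧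
              ∀ d : Finset (Fin (k i)), (H i).IsClique (d : Set (Fin (k i))) → c ⊆ d → d = c} =>
            (s.1 ∩ t.1).Nonempty)) ≃g H (i + 1))) ∧
      k n = 1 := by
  intro V _ _ G _ h0 h1 h2 h3 h4 h5 h6
  obtain ⟨h, hn⟩ := CLQD.disc_null V G h0 h1 h2 h3 h4 h5 h6 _ (kside thm_StA G)
  exact frozen_of_null G h hn

end Pool.Agent.CLQ
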