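import Pool.Agent.CLQ.KS
import Pool.Agent.CLQ.L1

/-!
# CLQ, module ONE: the base of the induction, and the abstract theorem `StA`
-/

set_option autoImplicit false

open Set

namespace Pool.Agent.CLQ

section base

variable {M : RG} {s : ℕ} {e w x : ℕ → M.V}

theorem Strip.m1 (hS : Strip M s e w x) {a b k : ℕ} (hab : a < b) (hb : b ≤ s + 2)
    (h0 : ¬ (a = 0 ∧ b = s + 2)) (h : M.Ch k (e a) (e b)) : b ≤ a + k := by
  rcases Nat.lt_or_ge (s + 1) b with h1 | h1
  · have hb2 : b = s + 2 := by omega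
    subst hb2
    have h2 := hS.ce 1 (a - 1) (by omega)
    rw [show 1 + (a - 1) = a by omega] at h2
    have h3 := hS.t2 _ (ch_trans h2 h)
    omega
  · have h2 := hS.ce 0 a (by omega)
    have h3 := hS.ce b (s + 1 - b) (by omega)
    rw [Nat.zero_add] at h2
    rw [show b + (s + 1 - b) = s + 1 by omega] at h3
    have h4 := hS.t1 _ (ch_trans h2 (ch_trans h h3))
    omega

theorem Strip.m2 (hS : Strip M s e w x) {a b k : ℕ} (hab : a < b) (hb : b ≤ s + 2)
    (h0 : ¬ (a = 0 ∧ b = s + 2)) (h : M.Ch k (w a) (e b)) : b ≤ a + k := by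
  rcases Nat.lt_or_ge (s + 1) b with h1 | h1
  · have hb2 : b = s + 2 := by omega
    subst hb2
    have h2 := hS.cw 1 (a - 1) (by omega)
    rw [show 1 + (a - 1) = a by omega] at h2
    have h3 := hS.t6 _ (ch_trans h2 h)
    omega
  · have h2 := hS.cw 0 a (by omega)
    have h3 := hS.ce b (s + 1 - b) (by omega)
    rw [Nat.zero_add] at h2
    rw [show b + (s + 1 - b) = s + 1 by omega] at h3
    have h4 := hS.t3 _ (ch_trans h2 (ch_trans h h3))
    omega

theorem Strip.m3 (hS : Strip M s e w x) {j a k : ℕ} (hja : j ≤ a) (ha : a ≤ s + 1)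
    (h0 : ¬ (j = 0 ∧ a = s + 1)) (h : M.Ch k (e j) (w a)) : a + 1 ≤ j + k := by
  rcases Nat.lt_or_ge s a with h1 | h1
  · have ha2 : a = s + 1 := by omega
    subst ha2
    have h2 := hS.ce 1 (j - 1) (by omega)
    rw [show 1 + (j - 1) = j by omega] at h2
    have h3 := hS.t4 _ (ch_trans h2 h)
    omega
  · have h2 := hS.ce 0 j (by omega)
    have h3 := hS.cw a (s - a) (by omega)
    rw [Nat.zero_add] at h2
    rw [show a + (s - a) = s by omega] at h3
    have h4 := hS.t5 _ (ch_trans h2 (ch_trans h h3))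
    omega

/-- the windows of level zero -/
theorem Strip.st (hS : Strip M s e w x) : St M (s + 2) (W0 M s e) := by
  constructor
  · rintro i u ⟨a, h1, h2, _⟩
    omega
  · rintro a b u v k hab hn ⟨a', h1, h2, rfl⟩ ⟨b', h3, h4, rfl⟩ hk
    have h5 := hS.m1 (a := a') (b := b') (k := k) (by omega) h4 (by omega) hk
    omega

/-- the neutral elements of level zero -/
theorem Strip.lm (hS : Strip M s e w x) : ∃ l, Lm M (s + 2) (W0 M s e) l := by
  classical
  obtain ⟨l, hl⟩ : ∃ l : M.V → M.V, ∀ i, 1 ≤ i → i ≤ s + 1 → l (e i) = w (i - 1) := by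
    refine ⟨fun v => if h : ∃ j, 1 ≤ j ∧ j ≤ s + 1 ∧ v = e j then w (h.choose - 1) else v, ?_⟩
    intro i h1 h2
    have h : ∃ j, 1 ≤ j ∧ j ≤ s + 1 ∧ e i = e j := ⟨i, h1, h2, rfl⟩
    have h3 := h.choose_spec
    have h4 : h.choose = i := by
      rcases Nat.lt_trichotomy h.choose i with h5 | h5 | h5
      · exact absurd h3.2.2.symm (hS.e_inj h5 h2)
      · exact h5
      · exact absurd h3.2.2 (hS.e_inj h5 h3.2.1)
    show (if h : ∃ j, 1 ≤ j ∧ j ≤ s + 1 ∧ e i = e j then w (h.choose - 1) else e i) = w (i - 1)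
    rw [dif_pos h, h4]
  have hs := hS.s1
  refine ⟨l, ?_, ?_, ?_, ?_⟩
  · rintro i u h1 h2 ⟨a, ha, ha', rfl⟩ j ⟨b, hb, hb', hlb⟩
    rw [hl a (by omega) (by omega)] at hlb
    rcases Nat.lt_or_ge (a - 1) b with h3 | h3
    · rcases Nat.lt_or_ge (s + 1) b with h4 | h4
      · rcases Nat.lt_or_ge 1 a with h5 | h5
        · have := hS.m2 (a := a - 1) (b := b) (k := 0) h3 hb' (by omega) hlb
          omega
        · -- `w 0 = e (s + 2)`
          have ha1 : a = 1 := by omega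
          have hb2 : b = s + 2 := by omega
          subst ha1 hb2
          have h6 : M.Ch 1 (w 0) (e (s + 1)) := by
            have h7 : w 0 = e (s + 2) := hlb
            rw [h7]
            exact ch_one (M.symm (hS.ee (s + 1) le_rfl))
          have := hS.m2 (a := 0) (b := s + 1) (k := 1) (by omega) (by omega) (by omega) h6
          omega
      · have := hS.m2 (a := a - 1) (b := b) (k := 0) h3 hb' (by omega) hlb
        omega
    · have := hS.m3 (j := b) (a := a - 1) (k := 0) h3 (by omega) (by omega) hlb.symm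
      omega
  · rintro i u v h1 h2 ⟨a, ha, ha', rfl⟩ huv hv
    rw [hl a (by omega) (by omega)]
    have e1 : M.r (e (a - 1 + 1)) (w (a - 1)) := hS.ew' (a - 1) (by omega)
    rw [show a - 1 + 1 = a by omega] at e1
    rcases hS.nb a v (by omega) (by omega) huv with h | h | h | h | h
    · rw [h]
      exact M.symm (hS.ew (a - 1) (by omega))
    · rw [h]
      exact M.symm e1
    · exfalso
      exact hv ⟨a + 1, by omega, by omega, h⟩
    · rw [h]
      exact M.refl _
    · rw [h]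
      have e2 := hS.ww (a - 1) (by omega)
      rw [show a - 1 + 1 = a by omega] at e2
      exact e2
  · rintro i j u v k h1 h2 hij hn ⟨a, ha, ha', rfl⟩ ⟨b, hb, hb', rfl⟩ hk
    rw [hl a (by omega) (by omega)] at hk
    have := hS.m2 (a := a - 1) (b := b) (k := k) (by omega) hb' (by omega) hk
    omega
  · rintro i j u v k h1 h2 hij ⟨a, ha, ha', rfl⟩ ⟨b, hb, hb', rfl⟩ hk
    rw [hl a (by omega) (by omega)] at hk
    have := hS.m3 (j := b) (a := a - 1) (k := k) (by omega) (by omega) (by omega) (ch_symm hk)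
    omega

/-- the reversed strip -/
theorem Strip.rev (hS : Strip M s e w x) :
    Strip M s (fun i => e (s + 2 - i)) (fun i => w (s + 1 - i)) (fun i => x (s - i)) := by
  have hs := hS.s1
  refine
    { s1 := hS.s1
      ee := fun i hi => ?_
      ww := fun i hi => ?_
      ew := fun i hi => ?_
      ew' := fun i hi => ?_
      nb := fun i v h1 h2 h3 => ?_
      x0 := hS.xs
      xs := ?_
      xx := fun i hi => ?_
      xw := fun i h1 h2 => ?_
      t1 := fun k hk => ?_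
      t2 := fun k hk => ?_
      t3 := fun k hk => ?_
      t4 := fun k hk => ?_
      t5 := fun k hk => ?_
      t6 := fun k hk => ?_ }
  · show M.r (e (s + 2 - i)) (e (s + 2 - (i + 1)))
    have h := hS.ee (s + 1 - i) (by omega)
    rw [show s + 1 - i + 1 = s + 2 - i by omega] at h
    rw [show s + 2 - (i + 1) = s + 1 - i by omega]
    exact M.symm h
  · show M.r (w (s + 1 - i)) (w (s + 1 - (i + 1)))
    have h := hS.ww (s - i) (by omega)
    rw [show s - i + 1 = s + 1 - i by omega] at h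
    rw [show s + 1 - (i + 1) = s - i by omega]
    exact M.symm h
  · show M.r (e (s + 2 - i)) (w (s + 1 - i))
    have h := hS.ew' (s + 1 - i) (by omega)
    rw [show s + 1 - i + 1 = s + 2 - i by omega] at h
    exact h
  · show M.r (e (s + 2 - (i + 1))) (w (s + 1 - i))
    have h := hS.ew (s + 1 - i) (by omega)
    rw [show s + 2 - (i + 1) = s + 1 - i by omega]
    exact h
  · show v = e (s + 2 - (i - 1)) ∨ v = e (s + 2 - i) ∨ v = e (s + 2 - (i + 1)) ∨
      v = w (s + 1 - (i - 1)) ∨ v = w (s + 1 - i)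
    rw [show s + 2 - (i - 1) = s + 2 - i + 1 by omega, show s + 2 - (i + 1) = s + 2 - i - 1 by omega,
      show s + 1 - (i - 1) = s + 2 - i by omega, show s + 1 - i = s + 2 - i - 1 by omega]
    rcases hS.nb (s + 2 - i) v (by omega) (by omega) h3 with h | h | h | h | h
    · exact Or.inr (Or.inr (Or.inl h))
    · exact Or.inr (Or.inl h)
    · exact Or.inl h
    · exact Or.inr (Or.inr (Or.inr (Or.inr h)))
    · exact Or.inr (Or.inr (Or.inr (Or.inl h)))
  · show x (s - s) = w (s + 1 - (s + 1))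
    rw [Nat.sub_self, Nat.sub_self]
    exact hS.x0
  · show M.r (x (s - i)) (x (s - (i + 1)))
    have h := hS.xx (s - i - 1) (by omega)
    rw [show s - i - 1 + 1 = s - i by omega] at h
    rw [show s - (i + 1) = s - i - 1 by omega]
    exact M.symm h
  · show M.r (x (s - (i - 1))) (w (s + 1 - (i - 1))) ∧ M.r (x (s - (i - 1))) (w (s + 1 - i))
    have h := hS.xw (s + 2 - i) (by omega) (by omega)
    rw [show s - (i - 1) = s + 2 - i - 1 by omega, show s + 1 - (i - 1) = s + 2 - i by omega,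
      show s + 1 - i = s + 2 - i - 1 by omega]
    exact ⟨h.2, h.1⟩
  · have h : M.Ch k (e (s + 2 - 0)) (e (s + 2 - (s + 1))) := hk
    rw [show s + 2 - (s + 1) = 1 by omega] at h
    exact hS.t2 k (ch_symm h)
  · have h : M.Ch k (e (s + 2 - 1)) (e (s + 2 - (s + 2))) := hk
    rw [show s + 2 - (s + 2) = 0 by omega, show s + 2 - 1 = s + 1 by omega] at h
    exact hS.t1 k (ch_symm h)
  · have h : M.Ch k (w (s + 1 - 0)) (e (s + 2 - (s + 1))) := hk
    rw [show s + 2 - (s + 1) = 1 by omega] at h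
    exact hS.t4 k (ch_symm h)
  · have h : M.Ch k (e (s + 2 - 1)) (w (s + 1 - (s + 1))) := hk
    rw [show s + 1 - (s + 1) = 0 by omega, show s + 2 - 1 = s + 1 by omega] at h
    exact hS.t3 k (ch_symm h)
  · have h : M.Ch k (e (s + 2 - 0)) (w (s + 1 - s)) := hk
    rw [show s + 1 - s = 1 by omega] at h
    exact hS.t6 k (ch_symm h)
  · have h : M.Ch k (w (s + 1 - 1)) (e (s + 2 - (s + 2))) := hk
    rw [show s + 2 - (s + 2) = 0 by omega, show s + 1 - 1 = s by omega] at h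
    exact hS.t5 k (ch_symm h)

theorem w0_rev : W0 M s (fun i => e (s + 2 - i)) = rv (s + 2) (W0 M s e) := by
  funext i
  funext u
  apply propext
  constructor
  · rintro ⟨a, h1, h2, h3⟩
    exact ⟨s + 2 - a, by omega, by omega, h3⟩
  · rintro ⟨a, h1, h2, h3⟩
    refine ⟨s + 2 - a, by omega, by omega, ?_⟩
    show u = e (s + 2 - (s + 2 - a))
    rw [show s + 2 - (s + 2 - a) = a by omega]
    exact h3

theorem Strip.lm_rv (hS : Strip M s e w x) : ∃ l, Lm M (s + 2) (rv (s + 2) (W0 M s e)) l := by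
  have h := hS.rev.lm
  rw [w0_rev] at h
  exact h

/-- the three types of maximal cliques at a vertex of the strip -/
theorem Strip.types (hS : Strip M s e w x) {j : ℕ} (h1 : 1 ≤ j) (h2 : j ≤ s + 1) (P : M.K.V)
    (hP : e j ∈ P.1) : (e (j - 1) ∈ P.1 ∧ w (j - 1) ∈ P.1) ∨ (e (j + 1) ∈ P.1 ∧ w j ∈ P.1) ∨
      (w (j - 1) ∈ P.1 ∧ w j ∈ P.1) := by
  have hs := hS.s1
  have r1 : M.r (e (j - 1)) (w (j - 1)) := hS.ew (j - 1) (by omega)
  have r2 : M.r (e j) (w (j - 1)) := by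
    have h := hS.ew' (j - 1) (by omega)
    rw [show j - 1 + 1 = j by omega] at h
    exact h
  have r3 : M.r (e j) (w j) := hS.ew j h2
  have r4 : M.r (e (j + 1)) (w j) := hS.ew' j h2
  have r5 : M.r (w (j - 1)) (w j) := by
    have h := hS.ww (j - 1) (by omega)
    rw [show j - 1 + 1 = j by omega] at h
    exact h
  have n1 : ¬ M.r (e (j - 1)) (e (j + 1)) := fun h => by
    have := hS.m1 (a := j - 1) (b := j + 1) (k := 1) (by omega) (by omega) (by omega) (ch_one h)
    omega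
  have n2 : ¬ M.r (e (j - 1)) (w j) := fun h => by
    have := hS.m3 (j := j - 1) (a := j) (k := 1) (by omega) (by omega) (by omega) (ch_one h)
    omega
  have n3 : ¬ M.r (w (j - 1)) (e (j + 1)) := fun h => by
    have := hS.m2 (a := j - 1) (b := j + 1) (k := 1) (by omega) (by omega) (by omega) (ch_one h)
    omega
  have hN : ∀ v ∈ P.1, v = e (j - 1) ∨ v = e j ∨ v = e (j + 1) ∨ v = w (j - 1) ∨ v = w j :=
    fun v hv => hS.nb j v h1 h2 (P.2.1 _ hP v hv)
  by_cases c1 : e (j - 1) ∈ P.1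
  · refine Or.inl ⟨c1, P.2.2 _ (fun v hv => ?_)⟩
    rcases hN v hv with h | h | h | h | h
    · rw [h]
      exact M.symm r1
    · rw [h]
      exact M.symm r2
    · exact absurd (P.2.1 _ c1 v hv) (h ▸ n1)
    · rw [h]
      exact M.refl _
    · exact absurd (P.2.1 _ c1 v hv) (h ▸ n2)
  · by_cases c2 : e (j + 1) ∈ P.1
    · refine Or.inr (Or.inl ⟨c2, P.2.2 _ (fun v hv => ?_)⟩)
      rcases hN v hv with h | h | h | h | h
      · exact absurd (h ▸ hv) c1
      · rw [h]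
        exact M.symm r3
      · rw [h]
        exact M.symm r4
      · exact absurd (P.2.1 v hv _ c2) (h ▸ n3)
      · rw [h]
        exact M.refl _
    · refine Or.inr (Or.inr ⟨P.2.2 _ (fun v hv => ?_), P.2.2 _ (fun v hv => ?_)⟩)
      · rcases hN v hv with h | h | h | h | h
        · exact absurd (h ▸ hv) c1
        · rw [h]
          exact M.symm r2
        · exact absurd (h ▸ hv) c2
        · rw [h]
          exact M.refl _
        · rw [h]
          exact r5
      · rcases hN v hv with h | h | h | h | h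
        · exact absurd (h ▸ hv) c1
        · rw [h]
          exact M.symm r3
        · exact absurd (h ▸ hv) c2
        · rw [h]
          exact M.symm r5
        · rw [h]
          exact M.refl _

/-- the base of the main claim -/
theorem Strip.df_one (hS : Strip M s e w x) {psi : M.V → M.V}
    (hp1 : ∀ i, 1 ≤ i → i ≤ s + 1 → psi (e i) = x (i - 1))
    (hp2 : ∀ v, (∀ i, 1 ≤ i → i ≤ s + 1 → v ≠ e i) → psi v = v) :
    ∃ f, Lft M M psi f ∧ Df M.K (s + 1) (KW M (W0 M s e)) f := by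
  have hs := hS.s1
  have hpsi := hS.wk_psi hp1 hp2
  obtain ⟨F, hF, hF'⟩ := exists_lft_rule hpsi
  refine ⟨F, hF, hF.wk, ?_⟩
  rintro Q Q' ⟨u, hu, hu'⟩ hn
  -- moved vertices
  have hmv : ∀ z y, M.r z y → ¬ M.r (psi z) y → ∃ i, 1 ≤ i ∧ i ≤ s + 1 ∧ z = e i := by
    intro z y hzy h
    by_contra hc
    rw [hp2 z (fun i g1 g2 g3 => hc ⟨i, g1, g2, g3⟩)] at h
    exact h hzy
  have hnF : ∀ y, y ∈ Q.1 → y ∈ Q'.1 → ∃ z ∈ Q.1, ¬ M.r (psi z) y := by
    intro y hy hy'
    by_contra hc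
    push Not at hc
    exact hn ⟨y, hF' Q y hy hc, hy'⟩
  have hnG : ∀ y, y ∈ Q.1 → y ∈ Q'.1 → ∃ v ∈ Q'.1, ¬ M.r (psi y) v := by
    intro y hy hy'
    by_contra hc
    push Not at hc
    exact hn ⟨psi y, hF Q y hy, Q'.2.2 _ hc⟩
  have hcm : ∀ y, y ∈ Q.1 → y ∈ Q'.1 → ∃ i, 1 ≤ i ∧ i ≤ s + 1 ∧ y = e i := by
    intro y hy hy'
    obtain ⟨v, hv, hyv⟩ := hnG y hy hy'
    exact hmv y v (Q'.2.1 y hy' v hv) hyv
  have hw : ∀ i, i ≤ s + 1 → w i ∈ Q.1 → w i ∈ Q'.1 → False := by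
    intro i hi h1 h2
    obtain ⟨k, g1, g2, g3⟩ := hcm _ h1 h2
    exact hS.w_ne hi g1 g2 g3
  obtain ⟨j, h1, h2, rfl⟩ := hcm u hu hu'
  have hX0 : psi (e 1) = w 0 := by
    rw [hp1 1 le_rfl (by omega)]
    exact hS.x0
  have hXs : psi (e (s + 1)) = w (s + 1) := by
    rw [hp1 (s + 1) (by omega) le_rfl]
    exact hS.xs
  -- the two cases
  have hcase : (e (j - 1) ∈ Q.1 ∧ w (j - 1) ∈ Q.1 ∧ e (j + 1) ∈ Q'.1 ∧ w j ∈ Q'.1) ∨
      (e (j + 1) ∈ Q.1 ∧ w j ∈ Q.1 ∧ e (j - 1) ∈ Q'.1 ∧ w (j - 1) ∈ Q'.1) := by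
    rcases hS.types h1 h2 Q hu with ⟨a1, a2⟩ | ⟨a1, a2⟩ | ⟨a1, a2⟩
    · rcases hS.types h1 h2 Q' hu' with ⟨b1, b2⟩ | ⟨b1, b2⟩ | ⟨b1, b2⟩
      · exact (hw _ (by omega) a2 b2).elim
      · exact Or.inl ⟨a1, a2, b1, b2⟩
      · exact (hw _ (by omega) a2 b1).elim
    · rcases hS.types h1 h2 Q' hu' with ⟨b1, b2⟩ | ⟨b1, b2⟩ | ⟨b1, b2⟩
      · exact Or.inr ⟨a1, a2, b1, b2⟩
      · exact (hw _ h2 a2 b2).elim
      · exact (hw _ h2 a2 b2).elim
    · rcases hS.types h1 h2 Q' hu' with ⟨b1, b2⟩ | ⟨b1, b2⟩ | ⟨b1, b2⟩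
      · exact (hw _ (by omega) a1 b2).elim
      · exact (hw _ h2 a2 b2).elim
      · exact (hw _ (by omega) a1 b1).elim
  obtain ⟨z, hz, hzu⟩ := hnF _ hu hu'
  obtain ⟨v, hv, huv⟩ := hnG _ hu hu'
  obtain ⟨i, g1, g2, rfl⟩ := hmv z _ (Q.2.1 z hz _ hu) hzu
  rcases hcase with ⟨a1, a2, b1, b2⟩ | ⟨a1, a2, b1, b2⟩
  · have hj1 : j ≠ 1 := by
      rintro rfl
      have h3 : M.r (e 0) (e i) := Q.2.1 _ a1 _ hz
      have h4 := hS.m1 (a := 0) (b := i) (k := 1) (by omega) (by omega) (by omega) (ch_one h3)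
      have h5 : i = 1 := by omega
      subst h5
      rw [hX0] at hzu
      exact hzu (Q.2.1 _ a2 _ hu)
    have hj2 : j ≠ s + 1 := by
      rintro rfl
      rw [hXs] at huv
      exact huv (Q'.2.1 _ b2 v hv)
    refine ⟨(j : ℤ) - 1, j, ⟨⟨e (j - 1), a1, ⟨j - 1, by omega, by omega, rfl⟩⟩,
      ⟨e j, hu, ⟨j, by omega, by omega, rfl⟩⟩⟩, ⟨⟨e j, hu', ⟨j, rfl, by omega, rfl⟩⟩,
      ⟨e (j + 1), b1, ⟨j + 1, by omega, by omega, rfl⟩⟩⟩, Or.inl (by ring), by omega, by omega,
      by omega, by omega⟩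
  · have hj1 : j ≠ 1 := by
      rintro rfl
      rw [hX0] at huv
      exact huv (Q'.2.1 _ b2 v hv)
    have hj2 : j ≠ s + 1 := by
      rintro rfl
      have h3 : M.r (e i) (e (s + 2)) := Q.2.1 _ hz _ a1
      have h5 : i = s + 1 := by
        by_contra hne
        have h4 := hS.m1 (a := i) (b := s + 2) (k := 1) (by omega) (by omega) (by omega)
          (ch_one h3)
        omega
      subst h5
      rw [hXs] at hzu
      exact hzu (Q.2.1 _ a2 _ hu)
    refine ⟨j, (j : ℤ) - 1, ⟨⟨e j, hu, ⟨j, rfl, by omega, rfl⟩⟩,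
      ⟨e (j + 1), a1, ⟨j + 1, by omega, by omega, rfl⟩⟩⟩,
      ⟨⟨e (j - 1), b1, ⟨j - 1, by omega, by omega, rfl⟩⟩,
      ⟨e j, hu', ⟨j, by omega, by omega, rfl⟩⟩⟩, Or.inr rfl, by omega, by omega,
      by omega, by omega⟩

end base

/-- **The abstract theorem**: at level `s` the lift of the shortcut map of a tight strip is adjacent
to the identity. -/
theorem thm_StA : StA := by
  intro M s e w x hS psi hp1 hp2
  obtain ⟨f, hf, D⟩ := hS.df_one hp1 hp2
  obtain ⟨l, L⟩ := hS.lm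
  obtain ⟨r, R⟩ := hS.lm_rv
  obtain ⟨l', L'⟩ := lm_K hS.st L
  obtain ⟨r', R'⟩ := lm_K (st_rv hS.st) R
  have S' := st_K hS.st
  rw [kw_rv] at R'
  have hs := hS.s1
  obtain ⟨k, rfl⟩ : ∃ k, s = k + 1 := ⟨s - 1, by omega⟩
  have e1 : ((k + 1 : ℕ) : ℤ) + 2 - 1 = (k : ℤ) + 2 := by push_cast; ring
  have e2 : ((k + 1 : ℕ) : ℤ) + 1 = (k : ℤ) + 2 := by push_cast; ring
  rw [e1] at S' L' R'
  rw [e2] at D
  obtain ⟨F, hF, h⟩ := df_all k S' L' R' D
  exact ⟨F, ⟨f, hf, hF⟩, h⟩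

end Pool.Agent.CLQ
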