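import Pool.Agent.CLQ.FZ

/-!
# CLQ, module SE: removal of a tight strip is an equivalence
-/

set_option autoImplicit false

open Set

namespace Pool.Agent.CLQ

variable {M : RG} {s : ℕ} {e w x : ℕ → M.V}

/-- the graph without the strip is a retract -/
theorem strip_null_conv (hS : Strip M s e w x) {M' : RG} (i : M'.V → M.V)
    (hinj : Function.Injective i) (hi : ∀ a b, M'.r a b ↔ M.r (i a) (i b))
    (him : ∀ v, (∀ j, 1 ≤ j → j ≤ s + 1 → v ≠ e j) ↔ ∃ a, i a = v)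
    (hM : M.Null) : M'.Null := by
  classical
  obtain ⟨psi, hp1, hp2⟩ : ∃ psi : M.V → M.V,
      (∀ i, 1 ≤ i → i ≤ s + 1 → psi (e i) = x (i - 1)) ∧
      (∀ v, (∀ i, 1 ≤ i → i ≤ s + 1 → v ≠ e i) → psi v = v) := by
    refine ⟨fun v => if h : ∃ j, 1 ≤ j ∧ j ≤ s + 1 ∧ v = e j then x (h.choose - 1) else v,
      ?_, ?_⟩
    · intro i h1 h2
      have h : ∃ j, 1 ≤ j ∧ j ≤ s + 1 ∧ e i = e j := ⟨i, h1, h2, rfl⟩
      have h3 := h.choose_spec
      have h4 : h.choose = i := by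
        rcases Nat.lt_trichotomy h.choose i with h5 | h5 | h5
        · exact absurd h3.2.2.symm (hS.e_inj h5 h2)
        · exact h5
        · exact absurd h3.2.2 (hS.e_inj h5 h3.2.1)
      show (if h : ∃ j, 1 ≤ j ∧ j ≤ s + 1 ∧ e i = e j then x (h.choose - 1) else e i) = x (i - 1)
      rw [dif_pos h, h4]
    · intro v hv
      have h : ¬ ∃ j, 1 ≤ j ∧ j ≤ s + 1 ∧ v = e j := fun ⟨j, h1, h2, h3⟩ => hv j h1 h2 h3
      exact dif_neg h
  have hpsi := hS.wk_psi hp1 hp2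
  have himg : ∀ v, ∃ a, i a = psi v := by
    intro v
    apply (him _).mp
    intro j h1 h2
    by_cases hv : ∃ j, 1 ≤ j ∧ j ≤ s + 1 ∧ v = e j
    · obtain ⟨k, g1, g2, g3⟩ := hv
      rw [g3, hp1 k g1 g2]
      exact hS.x_ne (by omega) h1 h2
    · rw [hp2 v (fun i h1 h2 h3 => hv ⟨i, h1, h2, h3⟩)]
      exact fun h3 => hv ⟨j, h1, h2, h3⟩
  choose r hr using himg
  refine null_of_retract (i := i) (r := r) (fun a b h => (hi a b).mp h) ?_ ?_ hM
  · intro u v huv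
    rw [hi, hr, hr]
    exact hpsi u v huv
  · funext a
    apply hinj
    show i (r (i a)) = i a
    rw [hr]
    exact hp2 _ ((him _).mpr ⟨a, rfl⟩)

end Pool.Agent.CLQ
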